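import Pool.Agent.Helper95.DFJ.F13.Lib
import Pool.Agent.Helper95.DFJ.St.A4

/-!
# DFJ: the semantics of the certificates over `ZMod 13`

The list matrices; a block representation gives a family of crossed homomorphisms; vanishing of
crossed homomorphisms with values in `W` by a finite check.
-/

namespace Pool.Agent.Helper95.DFJ.F13

section

open Matrix

theorem dot_eq (n : ℕ) : ∀ (a b : List ℕ), a.length = n → b.length = n →
    ((dot a b : ℕ) : K) = ∑ k : Fin n, ((a.getD k 0 : ℕ) : K) * ((b.getD k 0 : ℕ) : K) := by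
  induction n with
  | zero =>
    intro a b ha hb
    rw [List.length_eq_zero_iff] at ha hb
    subst ha hb
    simp [dot]
  | succ n ih =>
    intro a b ha hb
    match a, b, ha, hb with
    | x :: as, y :: bs, ha, hb =>
      have h1 := ih as bs (by simpa using ha) (by simpa using hb)
      rw [Fin.sum_univ_succ]
      simp only [dot, Nat.cast_add, Nat.cast_mul, h1]
      simp

theorem shp_iff (n : ℕ) (A : LM) : shp n A = true ↔ A.length = n ∧ ∀ r ∈ A, r.length = n := by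
  simp [shp]

theorem getD_mem {n : ℕ} {A : LM} (h : shp n A = true) (i : Fin n) :
    (A.getD i []) ∈ A ∧ (A.getD i []).length = n := by
  rw [shp_iff] at h
  have hi : (i : ℕ) < A.length := by rw [h.1]; exact i.2
  have : A.getD i [] = A[(i : ℕ)] := by simp [List.getD, hi]
  rw [this]
  exact ⟨List.getElem_mem hi, h.2 _ (List.getElem_mem hi)⟩

theorem colM_length (A : LM) (j : ℕ) : (colM A j).length = A.length := by simp [colM]

theorem colM_getD {n : ℕ} {A : LM} (h : shp n A = true) (j : ℕ) (k : Fin n) :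
    (colM A j).getD k 0 = (A.getD k []).getD j 0 := by
  rw [shp_iff] at h
  have hk : (k : ℕ) < A.length := by rw [h.1]; exact k.2
  simp [colM, List.getD, hk]

theorem trM_shp {n : ℕ} {A : LM} (h : shp n A = true) : shp n (trM n A) = true := by
  rw [shp_iff] at h ⊢
  refine ⟨by simp [trM], fun r hr => ?_⟩
  simp only [trM, List.mem_map] at hr
  obtain ⟨j, _, rfl⟩ := hr
  rw [colM_length, h.1]

theorem mulM_shp {n : ℕ} {A B : LM} (hA : shp n A = true) : shp n (mulM n A B) = true := by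
  rw [shp_iff] at hA ⊢
  refine ⟨by simp [mulM, mulT, hA.1], fun r hr => ?_⟩
  simp only [mulM, mulT, List.mem_map] at hr
  obtain ⟨s, _, rfl⟩ := hr
  simp [trM]

theorem toM_mul {n : ℕ} {A B : LM} (hA : shp n A = true) (hB : shp n B = true) :
    toM n (mulM n A B) = toM n A * toM n B := by
  ext i j
  rw [Matrix.mul_apply]
  have hA' := (shp_iff _ _).1 hA
  have hi : (i : ℕ) < A.length := by rw [hA'.1]; exact i.2
  have hj : (j : ℕ) < (trM n B).length := by simp [trM]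
  have e1 : (mulM n A B).getD i [] = (trM n B).map fun c => dot (A.getD i []) c % 13 := by
    simp [mulM, mulT, List.getD, hi]
  have e2 : ((mulM n A B).getD i []).getD j 0 = dot (A.getD i []) (colM B j) % 13 := by
    rw [e1]
    simp [List.getD, trM]
  show ((((mulM n A B).getD i []).getD j 0 : ℕ) : K) = _
  have hBl : B.length = n := ((shp_iff _ _).1 hB).1
  rw [e2, ZMod.natCast_mod, dot_eq n _ _ (getD_mem hA i).2 (by rw [colM_length, hBl])]
  refine Finset.sum_congr rfl fun k _ => ?_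
  rw [colM_getD hB]
  rfl

theorem toM_id (n : ℕ) : toM n (idM n) = 1 := by
  ext i j
  show ((((idM n).getD i []).getD j 0 : ℕ) : K) = _
  have : ((idM n).getD i []).getD j 0 = if (i : ℕ) = (j : ℕ) then 1 else 0 := by
    simp [idM, List.getD]
  rw [this, Matrix.one_apply]
  by_cases h : i = j
  · subst h; simp
  · have : ¬ (i : ℕ) = (j : ℕ) := fun h' => h (Fin.ext h')
    simp [h, this]

theorem idM_shp (n : ℕ) : shp n (idM n) = true := by
  rw [shp_iff]
  refine ⟨by simp [idM], fun r hr => ?_⟩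
  simp only [idM, List.mem_map] at hr
  obtain ⟨i, _, rfl⟩ := hr
  simp

/-- the unit `u` is represented by `x` -/
structure Rp (n : ℕ) (u : (MT n)ˣ) (x : LE) : Prop where
  s1 : shp n x.m = true
  s2 : shp n x.i = true
  e1 : (u : MT n) = toM n x.m
  e2 : ((u⁻¹ : (MT n)ˣ) : MT n) = toM n x.i

theorem Rp.mul {n : ℕ} {u v : (MT n)ˣ} {x y : LE} (h : Rp n u x) (k : Rp n v y) :
    Rp n (u * v) (LE.mul n x y) := by
  refine ⟨mulM_shp h.s1, mulM_shp k.s2, ?_, ?_⟩
  · show (u : MT n) * v = toM n (mulM n x.m y.m)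
    rw [toM_mul h.s1 k.s1, h.e1, k.e1]
  · rw [_root_.mul_inv_rev]
    show ((v⁻¹ : (MT n)ˣ) : MT n) * ((u⁻¹ : (MT n)ˣ) : MT n) = toM n (mulM n y.i x.i)
    rw [toM_mul k.s2 h.s2, h.e2, k.e2]

theorem Rp.inv {n : ℕ} {u : (MT n)ˣ} {x : LE} (h : Rp n u x) : Rp n u⁻¹ x.inv :=
  ⟨h.s2, h.s1, h.e2, by rw [inv_inv]; exact h.e1⟩

def toU (n : ℕ) (x : LE) (h : valid n x = true) : (MT n)ˣ :=
  have h' : (shp n x.m = true ∧ shp n x.i = true) ∧ mulM n x.m x.i = idM n ∧ mulM n x.i x.m = idM n := by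
    simpa [valid, and_assoc] using h
  ⟨toM n x.m, toM n x.i, by rw [← toM_mul h'.1.1 h'.1.2, h'.2.1, toM_id],
    by rw [← toM_mul h'.1.2 h'.1.1, h'.2.2, toM_id]⟩

theorem toU_rp (n : ℕ) (x : LE) (h : valid n x = true) : Rp n (toU n x h) x := by
  have h' : (shp n x.m = true ∧ shp n x.i = true) ∧ mulM n x.m x.i = idM n ∧ mulM n x.i x.m = idM n := by
    simpa [valid, and_assoc] using h
  exact ⟨h'.1.1, h'.1.2, rfl, rfl⟩

theorem Rp.ext {n : ℕ} {u v : (MT n)ˣ} {x y : LE} (h : Rp n u x) (k : Rp n v y) (e : x.m = y.m) : u = v := by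
  apply Units.ext
  rw [h.e1, k.e1, e]

theorem rel_of_chk {n : ℕ} {u v w : (MT n)ˣ} {b c t : LE} (hb : Rp n u b) (hc : Rp n v c) (ht : Rp n w t)
    (h : relChk n b c t = true) : Rel u v w := by
  have hd : Rp n (dW u v w) (dL n b c t) := (((ht.mul hb).mul hc).mul hb.inv).mul ht.inv
  have ha : Rp n (aW u v w) (aL n b (dL n b c t) t) := (ht.inv.mul ((hd.inv.mul hb).mul hd)).mul ht
  have hp := ((hc.inv.mul hd.inv).mul hc).mul hb.inv
  have hq := ((hb.mul hc.inv).mul hd).mul hc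
  have hs := (ht.mul hb).mul ht.inv
  have h4 := (hp.mul ha.inv).mul hq
  have h5 := (((hp.mul ha).mul hq).mul (hb.inv.mul ha.inv)).mul hq
  have e4 : X4 u v w = (v⁻¹ * (dW u v w)⁻¹ * v * u⁻¹) * (aW u v w)⁻¹ * (u * v⁻¹ * dW u v w * v) := by
    simp only [X4, mul_assoc]
  have e5 : X5 u v w = (v⁻¹ * (dW u v w)⁻¹ * v * u⁻¹) * aW u v w * (u * v⁻¹ * dW u v w * v) *
      (u⁻¹ * (aW u v w)⁻¹) * (u * v⁻¹ * dW u v w * v) := by
    simp only [X5, mul_assoc]
  simp only [relChk, Bool.and_eq_true, beq_iff_eq] at h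
  obtain ⟨⟨⟨h1, h2⟩, h3⟩, h6⟩ := h
  refine ⟨?_, ?_, ?_, ?_⟩
  · apply Units.ext
    rw [Units.val_pow_eq_pow_val, Units.val_one, pow_three', hb.e1, ← toM_mul hb.s1 hb.s1,
      ← toM_mul (mulM_shp hb.s1) hb.s1, h1, toM_id]
  · apply Units.ext
    have : (v : MT n) ^ 4 = (v : MT n) * v * v * v := by simp [pow_succ]
    rw [Units.val_pow_eq_pow_val, Units.val_one, this, hc.e1, ← toM_mul hc.s1 hc.s1,
      ← toM_mul (mulM_shp hc.s1) hc.s1, ← toM_mul (mulM_shp (mulM_shp hc.s1)) hc.s1, h2, toM_id]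
  · have l3 : v⁻¹ * (w * u⁻¹ * w⁻¹) * v = v⁻¹ * (w * u * w⁻¹)⁻¹ * v := by
      rw [show (w * u * w⁻¹)⁻¹ = w * u⁻¹ * w⁻¹ by group]
    rw [e4, l3]
    exact ((hc.inv.mul hs.inv).mul hc).ext ((ht.mul h4).mul ht.inv) h3
  · have l6 : v⁻¹ * (w * u * w⁻¹) * v * (w * u⁻¹ * w⁻¹) * v =
        v⁻¹ * (w * u * w⁻¹) * v * (w * u * w⁻¹)⁻¹ * v := by
      rw [show (w * u * w⁻¹)⁻¹ = w * u⁻¹ * w⁻¹ by group]
    rw [e5, l6]
    exact ((((hc.inv.mul hs).mul hc).mul hs.inv).mul hc).ext h5 h6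

end

section

open Matrix Multiplicative Module

instance fact13 : Fact (Nat.Prime 13) := ⟨by norm_num⟩

variable {d : ℕ}

theorem bk_mul (M N : MT (3 + d)) : bk (M * N) = bk M * bk N := by
  rw [bk, bk, bk, Matrix.submatrix_mul_equiv]

theorem bk_one : bk (1 : MT (3 + d)) = 1 := by
  rw [bk, Matrix.submatrix_one_equiv]

theorem fam {G : Type} [Group G] (b c t : G) (hgen : Subgroup.closure {b, c, t} = ⊤)
    (ρ : Representation K G (Fin 3 → K)) (α : G →* Multiplicative ℤ)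
    (hαb : α b = 1) (hαc : α c = 1) (hαt : α t = ofAdd 1)
    (f : G →* (MT (3 + d))ˣ) (Q : (Matrix (Fin d) (Fin d) K)ˣ) (Ub Uc : Matrix (Fin 3) (Fin d) K)
    (hb : bk (f b : MT (3 + d)) = fromBlocks (LinearMap.toMatrix' (ρ b)) Ub 0 1)
    (hc : bk (f c : MT (3 + d)) = fromBlocks (LinearMap.toMatrix' (ρ c)) Uc 0 1)
    (ht : bk (f t : MT (3 + d)) = fromBlocks (LinearMap.toMatrix' (ρ t)) 0 0 (Q : Matrix (Fin d) (Fin d) K))
    (hinj : ∀ e : Fin d → K, Ub *ᵥ e = 0 → Uc *ᵥ e = 0 → Ub *ᵥ ((Q : Matrix (Fin d) (Fin d) K) *ᵥ e) = 0 →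
      Uc *ᵥ ((Q : Matrix (Fin d) (Fin d) K) *ᵥ e) = 0 → e = 0)
    [FiniteDimensional K (Zt (seqRep ρ α) t)] : d ≤ finrank K (Zt (seqRep ρ α) t) := by
  -- block form of every element
  have key : ∀ g : G, ∃ U : Matrix (Fin 3) (Fin d) K, bk (f g : MT (3 + d)) =
      fromBlocks (LinearMap.toMatrix' (ρ g)) U 0 ((Q ^ (toAdd (α g)) : (Matrix (Fin d) (Fin d) K)ˣ) :
        Matrix (Fin d) (Fin d) K) := by
    intro g
    have hg : g ∈ Subgroup.closure {b, c, t} := hgen ▸ Subgroup.mem_top g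
    induction hg using Subgroup.closure_induction with
    | mem x hx =>
      simp only [Set.mem_insert_iff, Set.mem_singleton_iff] at hx
      rcases hx with rfl | rfl | rfl
      · exact ⟨Ub, by rw [hb, hαb]; simp⟩
      · exact ⟨Uc, by rw [hc, hαc]; simp⟩
      · exact ⟨0, by rw [ht, hαt]; simp⟩
    | one => exact ⟨0, by
        rw [map_one f, map_one ρ, map_one α, Units.val_one, bk_one, Module.End.one_eq_id, LinearMap.toMatrix'_id,
          toAdd_one, _root_.zpow_zero, Units.val_one, fromBlocks_one]⟩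
    | mul x y _ _ hx hy =>
      obtain ⟨U, hU⟩ := hx
      obtain ⟨U', hU'⟩ := hy
      refine ⟨LinearMap.toMatrix' (ρ x) * U' + U * ((Q ^ (toAdd (α y)) : (Matrix (Fin d) (Fin d) K)ˣ) :
        Matrix (Fin d) (Fin d) K), ?_⟩
      rw [map_mul f, Units.val_mul, bk_mul, hU, hU', fromBlocks_multiply, map_mul ρ, map_mul α, toAdd_mul,
        _root_.zpow_add, Units.val_mul, Module.End.mul_eq_comp, LinearMap.toMatrix'_comp]
      simp
    | inv x _ hx =>
      obtain ⟨U, hU⟩ := hx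
      set D := ((Q ^ (toAdd (α x)) : (Matrix (Fin d) (Fin d) K)ˣ) : Matrix (Fin d) (Fin d) K) with hD
      set D' := ((Q ^ (toAdd (α x⁻¹)) : (Matrix (Fin d) (Fin d) K)ˣ) : Matrix (Fin d) (Fin d) K) with hD'
      have hDD : D' * D = 1 := by
        rw [hD, hD', ← Units.val_mul, ← _root_.zpow_add, map_inv, toAdd_inv, neg_add_cancel, _root_.zpow_zero, Units.val_one]
      have hAA : LinearMap.toMatrix' (ρ x⁻¹) * LinearMap.toMatrix' (ρ x) = 1 := by
        rw [← LinearMap.toMatrix'_comp, ← Module.End.mul_eq_comp, ← map_mul, inv_mul_cancel, map_one,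
          Module.End.one_eq_id, LinearMap.toMatrix'_id]
      refine ⟨-(LinearMap.toMatrix' (ρ x⁻¹) * U * D'), ?_⟩
      have hX : fromBlocks (LinearMap.toMatrix' (ρ x⁻¹)) (-(LinearMap.toMatrix' (ρ x⁻¹) * U * D')) 0 D' *
          bk (f x : MT (3 + d)) = 1 := by
        have e1 : -(LinearMap.toMatrix' (ρ x⁻¹) * U * D') * D = -(LinearMap.toMatrix' (ρ x⁻¹) * U) := by
          rw [Matrix.neg_mul, Matrix.mul_assoc _ D' D, hDD, Matrix.mul_one]
        rw [hU, fromBlocks_multiply, hAA, hDD, e1, add_neg_cancel, Matrix.mul_zero, Matrix.mul_zero,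
          Matrix.zero_mul, Matrix.zero_mul, add_zero, zero_add, zero_add, fromBlocks_one]
      have h1 : bk (f x : MT (3 + d)) * bk ((f x⁻¹ : (MT (3 + d))ˣ) : MT (3 + d)) = 1 := by
        rw [← bk_mul, ← Units.val_mul, ← map_mul, mul_inv_cancel, map_one, Units.val_one, bk_one]
      calc bk ((f x⁻¹ : (MT (3 + d))ˣ) : MT (3 + d))
          = (fromBlocks (LinearMap.toMatrix' (ρ x⁻¹)) (-(LinearMap.toMatrix' (ρ x⁻¹) * U * D')) 0 D' *
            bk (f x : MT (3 + d))) * bk ((f x⁻¹ : (MT (3 + d))ˣ) : MT (3 + d)) := by rw [hX, one_mul]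
        _ = _ := by rw [mul_assoc, h1, mul_one]
  choose U hU using key
  have hUmul : ∀ x y, U (x * y) = LinearMap.toMatrix' (ρ x) * U y +
      U x * ((Q ^ (toAdd (α y)) : (Matrix (Fin d) (Fin d) K)ˣ) : Matrix (Fin d) (Fin d) K) := by
    intro x y
    have h1 : bk (f (x * y) : MT (3 + d)) = bk (f x : MT (3 + d)) * bk (f y : MT (3 + d)) := by
      rw [map_mul, Units.val_mul, bk_mul]
    rw [hU, hU, hU, fromBlocks_multiply] at h1
    exact (fromBlocks_inj.1 h1).2.1
  have hUb : U b = Ub := (fromBlocks_inj.1 ((hU b).symm.trans hb)).2.1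
  have hUc : U c = Uc := (fromBlocks_inj.1 ((hU c).symm.trans hc)).2.1
  have hUt : U t = 0 := (fromBlocks_inj.1 ((hU t).symm.trans ht)).2.1
  let qz : ℤ → Matrix (Fin d) (Fin d) K := fun i => ((Q ^ i : (Matrix (Fin d) (Fin d) K)ˣ) : Matrix (Fin d) (Fin d) K)
  have hqz : ∀ i j, qz (i + j) = qz i * qz j := fun i j => by
    show ((Q ^ (i + j) : (Matrix (Fin d) (Fin d) K)ˣ) : Matrix (Fin d) (Fin d) K) = _
    rw [_root_.zpow_add, Units.val_mul]
  -- the family
  let Φ : (Fin d → K) →ₗ[K] (G → ℤ → Fin 3 → K) :=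
    { toFun := fun e g i => U g *ᵥ (qz (i - toAdd (α g)) *ᵥ e)
      map_add' := fun e e' => by funext g i; simp [Matrix.mulVec_add]
      map_smul' := fun r e => by funext g i; simp [Matrix.mulVec_smul] }
  have hΦ : ∀ e, Φ e ∈ Zt (seqRep ρ α) t := by
    intro e
    refine ⟨fun g h => ?_, ?_⟩
    · funext i
      show U (g * h) *ᵥ (qz (i - toAdd (α (g * h))) *ᵥ e) =
        U g *ᵥ (qz (i - toAdd (α g)) *ᵥ e) + ρ g (U h *ᵥ (qz (i - toAdd (α g) - toAdd (α h)) *ᵥ e))
      have h1 : ρ g (U h *ᵥ (qz (i - toAdd (α g) - toAdd (α h)) *ᵥ e)) =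
          LinearMap.toMatrix' (ρ g) *ᵥ (U h *ᵥ (qz (i - toAdd (α g) - toAdd (α h)) *ᵥ e)) := by
        generalize U h *ᵥ (qz (i - toAdd (α g) - toAdd (α h)) *ᵥ e) = v
        conv_lhs => rw [← Matrix.toLin'_toMatrix' (ρ g)]
        rfl
      have h2 : toAdd (α (g * h)) = toAdd (α g) + toAdd (α h) := by rw [map_mul, toAdd_mul]
      have h3 : qz (i - toAdd (α g)) = qz (toAdd (α h)) * qz (i - toAdd (α g) - toAdd (α h)) := by
        rw [← hqz]; congr 1; ring
      rw [h1, hUmul, h2, Matrix.add_mulVec, h3, ← sub_sub, Matrix.mulVec_mulVec, Matrix.mulVec_mulVec,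
        Matrix.mulVec_mulVec, Matrix.mulVec_mulVec, Matrix.mulVec_mulVec, add_comm, ← Matrix.mul_assoc (U g)]
    · funext i
      show U t *ᵥ _ = 0
      rw [hUt, Matrix.zero_mulVec]
  let Ψ : (Fin d → K) →ₗ[K] Zt (seqRep ρ α) t := Φ.codRestrict _ hΦ
  have hΨ : Function.Injective Ψ := by
    rw [injective_iff_map_eq_zero]
    intro e he
    have h0 : ∀ g i, U g *ᵥ (qz (i - toAdd (α g)) *ᵥ e) = 0 := fun g i =>
      congrFun (congrFun (congrArg Subtype.val he) g) i
    have q0 : qz 0 = 1 := by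
      show ((Q ^ (0 : ℤ) : (Matrix (Fin d) (Fin d) K)ˣ) : Matrix (Fin d) (Fin d) K) = 1
      rw [_root_.zpow_zero, Units.val_one]
    have q1 : qz 1 = (Q : Matrix (Fin d) (Fin d) K) := by
      show ((Q ^ (1 : ℤ) : (Matrix (Fin d) (Fin d) K)ˣ) : Matrix (Fin d) (Fin d) K) = Q
      rw [_root_.zpow_one]
    have a0 := h0 b 0
    have a1 := h0 c 0
    have a2 := h0 b 1
    have a3 := h0 c 1
    rw [hUb, hαb, toAdd_one, sub_zero, q0, Matrix.one_mulVec] at a0
    rw [hUc, hαc, toAdd_one, sub_zero, q0, Matrix.one_mulVec] at a1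
    rw [hUb, hαb, toAdd_one, sub_zero, q1] at a2
    rw [hUc, hαc, toAdd_one, sub_zero, q1] at a3
    exact hinj e a0 a1 a2 a3
  have := LinearMap.finrank_le_finrank_of_injective hΨ
  simpa using this

end

section

open Matrix Multiplicative Module

variable {d : ℕ}

theorem addR_len : ∀ (n : ℕ) (a b : List ℕ), a.length = n → b.length = n → (addR a b).length = n := by
  intro n
  induction n with
  | zero => intro a b ha hb; rw [List.length_eq_zero_iff] at ha hb; subst ha hb; rfl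
  | succ n ih =>
    intro a b ha hb
    match a, b, ha, hb with
    | x :: as, y :: bs, ha, hb => simp [addR, ih as bs (by simpa using ha) (by simpa using hb)]

theorem addR_getD : ∀ (n : ℕ) (a b : List ℕ), a.length = n → b.length = n → ∀ j,
    (((addR a b).getD j 0 : ℕ) : K) = ((a.getD j 0 : ℕ) : K) + ((b.getD j 0 : ℕ) : K) := by
  intro n
  induction n with
  | zero => intro a b ha hb j; rw [List.length_eq_zero_iff] at ha hb; subst ha hb; simp [addR]
  | succ n ih =>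
    intro a b ha hb j
    match a, b, ha, hb with
    | x :: as, y :: bs, ha, hb =>
      cases j with
      | zero => simp [addR]
      | succ j => simpa [addR] using ih as bs (by simpa using ha) (by simpa using hb) j

theorem addM_spec (m : ℕ) : ∀ (n : ℕ) (A B : LM), A.length = n → B.length = n →
    (∀ r ∈ A, r.length = m) → (∀ r ∈ B, r.length = m) →
    (addM A B).length = n ∧ (∀ r ∈ addM A B, r.length = m) ∧
    ∀ i j, ((((addM A B).getD i []).getD j 0 : ℕ) : K) =
      (((A.getD i []).getD j 0 : ℕ) : K) + (((B.getD i []).getD j 0 : ℕ) : K) := by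
  intro n
  induction n with
  | zero =>
    intro A B hA hB _ _
    rw [List.length_eq_zero_iff] at hA hB; subst hA hB
    refine ⟨rfl, by simp [addM], by simp [addM]⟩
  | succ n ih =>
    intro A B hA hB rA rB
    match A, B, hA, hB, rA, rB with
    | x :: as, y :: bs, hA, hB, rA, rB =>
      obtain ⟨h1, h2, h3⟩ := ih as bs (by simpa using hA) (by simpa using hB)
        (fun r hr => rA r (List.mem_cons_of_mem _ hr)) (fun r hr => rB r (List.mem_cons_of_mem _ hr))
      have hx := rA x List.mem_cons_self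
      have hy := rB y List.mem_cons_self
      refine ⟨by simp [addM, h1], ?_, ?_⟩
      · intro r hr
        simp only [addM, List.mem_cons] at hr
        rcases hr with rfl | hr
        · exact addR_len m x y hx hy
        · exact h2 r hr
      · intro i j
        cases i with
        | zero => simpa [addM] using addR_getD m x y hx hy j
        | succ i => simpa [addM] using h3 i j

theorem addM_shp {n : ℕ} {A B : LM} (hA : shp n A = true) (hB : shp n B = true) :
    shp n (addM A B) = true := by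
  rw [shp_iff] at *
  obtain ⟨h1, h2, _⟩ := addM_spec n n A B hA.1 hB.1 hA.2 hB.2
  exact ⟨h1, h2⟩

theorem toM_add {n : ℕ} {A B : LM} (hA : shp n A = true) (hB : shp n B = true) :
    toM n (addM A B) = toM n A + toM n B := by
  rw [shp_iff] at *
  obtain ⟨_, _, h3⟩ := addM_spec n n A B hA.1 hB.1 hA.2 hB.2
  ext i j
  exact h3 i j

theorem lin_apply {n : ℕ} (v : Fin n → K) :
    ∀ (P A B : List LM) (Z J : LM), (∀ M ∈ P, shp n M = true) → (∀ M ∈ A, shp n M = true) →
    (∀ M ∈ B, shp n M = true) → shp n Z = true → shp n J = true →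
    List.Forall₂ (fun M N => toM n M *ᵥ v = toM n N *ᵥ v) A B →
    toM n (lin n P A Z) *ᵥ v = toM n (lin n P B J) *ᵥ v → toM n Z *ᵥ v = toM n J *ᵥ v := by
  have key : ∀ (P A B : List LM) (Z J : LM), (∀ M ∈ P, shp n M = true) → (∀ M ∈ A, shp n M = true) →
    (∀ M ∈ B, shp n M = true) → shp n Z = true → shp n J = true →
    List.Forall₂ (fun M N => toM n M *ᵥ v = toM n N *ᵥ v) A B →
    shp n (lin n P A Z) = true ∧ shp n (lin n P B J) = true ∧
    toM n (lin n P A Z) *ᵥ v - toM n Z *ᵥ v = toM n (lin n P B J) *ᵥ v - toM n J *ᵥ v := by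
    intro P
    induction P with
    | nil => intro A B Z J _ _ _ hZ hJ _; exact ⟨by simpa [lin] using hZ, by simpa [lin] using hJ, by simp [lin]⟩
    | cons p P ih =>
      intro A B Z J hP hA hB hZ hJ hF
      cases hF with
      | nil => exact ⟨by simpa [lin] using hZ, by simpa [lin] using hJ, by simp [lin]⟩
      | @cons a b' as bs h1 h2 =>
        obtain ⟨i1, i2, i3⟩ := ih as bs Z J (fun M hM => hP M (List.mem_cons_of_mem _ hM))
          (fun M hM => hA M (List.mem_cons_of_mem _ hM)) (fun M hM => hB M (List.mem_cons_of_mem _ hM)) hZ hJ h2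
        have sp := hP p List.mem_cons_self
        have sa := hA a List.mem_cons_self
        have sb := hB b' List.mem_cons_self
        refine ⟨addM_shp (mulM_shp sp) i1, addM_shp (mulM_shp sp) i2, ?_⟩
        show toM n (addM (mulM n p a) (lin n P as Z)) *ᵥ v - _ = toM n (addM (mulM n p b') (lin n P bs J)) *ᵥ v - _
        rw [toM_add (mulM_shp sp) i1, toM_add (mulM_shp sp) i2, toM_mul sp sa, toM_mul sp sb,
          Matrix.add_mulVec, Matrix.add_mulVec, ← Matrix.mulVec_mulVec, ← Matrix.mulVec_mulVec, h1,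
          add_sub_assoc, add_sub_assoc, i3]
  intro P A B Z J hP hA hB hZ hJ hF h
  obtain ⟨_, _, h3⟩ := key P A B Z J hP hA hB hZ hJ hF
  rw [h] at h3
  exact sub_right_injective h3

theorem E1_mul (x y : Fin 3 → K) : E1 *ᵥ (Fin.append x y) = x := by
  funext i
  fin_cases i <;> simp [E1, Matrix.mulVec, dotProduct, Fin.sum_univ_succ, Fin.append, Fin.addCases] <;> rfl

theorem E2_mul (x y : Fin 3 → K) : E2 *ᵥ (Fin.append x y) = y := by
  funext i
  fin_cases i <;> simp [E2, Matrix.mulVec, dotProduct, Fin.sum_univ_succ, Fin.append, Fin.addCases] <;> rfl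

theorem lhs_shp {n : ℕ} {u v w : (MT n)ˣ} {B C T : LE} (rB : Rp n u B) (rC : Rp n v C) (rT : Rp n w T) :
    ∀ M ∈ lhsL n B C T, shp n M = true := by
  have hs := (rT.mul rB).mul rT.inv
  have R1 := (rB.mul rB).mul rB
  have R2 := ((rC.mul rC).mul rC).mul rC
  have R3 := (rC.inv.mul hs.inv).mul rC
  have R4 := (((rC.inv.mul hs).mul rC).mul hs.inv).mul rC
  intro M hM
  simp only [lhsL, List.mem_cons, List.not_mem_nil, or_false] at hM
  rcases hM with rfl | rfl | rfl | rfl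
  · exact R1.s1
  · exact R2.s1
  · exact R3.s1
  · exact R4.s1

theorem rhs_shp {n : ℕ} {u v w : (MT n)ˣ} {B C T : LE} (rB : Rp n u B) (rC : Rp n v C) (rT : Rp n w T) :
    ∀ M ∈ rhsL n B C T, shp n M = true := by
  have hd : Rp _ (dW u v w) (dL n B C T) := (((rT.mul rB).mul rC).mul rB.inv).mul rT.inv
  have ha : Rp _ (aW u v w) (aL n B (dL n B C T) T) :=
    (rT.inv.mul ((hd.inv.mul rB).mul hd)).mul rT
  have hp := ((rC.inv.mul hd.inv).mul rC).mul rB.inv
  have hq := ((rB.mul rC.inv).mul hd).mul rC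
  have h4 := (hp.mul ha.inv).mul hq
  have h5 := (((hp.mul ha).mul hq).mul (rB.inv.mul ha.inv)).mul hq
  have R3' := (rT.mul h4).mul rT.inv
  intro M hM
  simp only [rhsL, List.mem_cons, List.not_mem_nil, or_false] at hM
  rcases hM with rfl | rfl | rfl | rfl
  · exact idM_shp n
  · exact idM_shp n
  · exact R3'.s1
  · exact h5.s1

theorem forall_rel {n : ℕ} {G : Type} [Group G] {b c t : G} (hR : Rel b c t) (Kp : Subgroup (G × (MT n)ˣ))
    (x : Fin n → K)
    (eqv : ∀ (g g' : G) (M M' : (MT n)ˣ), (g, M) ∈ Kp → (g', M') ∈ Kp → g = g' →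
      (M : MT n) *ᵥ x = (M' : MT n) *ᵥ x)
    {u v w : (MT n)ˣ} {B C T : LE} (rB : Rp n u B) (rC : Rp n v C) (rT : Rp n w T)
    (mB : ((b, u) : G × (MT n)ˣ) ∈ Kp) (mC : ((c, v) : G × (MT n)ˣ) ∈ Kp) (mT : ((t, w) : G × (MT n)ˣ) ∈ Kp) :
    List.Forall₂ (fun M N => toM n M *ᵥ x = toM n N *ᵥ x) (lhsL n B C T) (rhsL n B C T) := by
  obtain ⟨r1, r2, r3, r4⟩ := hR
  have hd : Rp _ (dW u v w) (dL n B C T) := (((rT.mul rB).mul rC).mul rB.inv).mul rT.inv
  have ha : Rp _ (aW u v w) (aL n B (dL n B C T) T) :=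
    (rT.inv.mul ((hd.inv.mul rB).mul hd)).mul rT
  have hp := ((rC.inv.mul hd.inv).mul rC).mul rB.inv
  have hq := ((rB.mul rC.inv).mul hd).mul rC
  have hs := (rT.mul rB).mul rT.inv
  have h4 := (hp.mul ha.inv).mul hq
  have h5 := (((hp.mul ha).mul hq).mul (rB.inv.mul ha.inv)).mul hq
  have kd : ((dW b c t, dW u v w) : G × (MT n)ˣ) ∈ Kp :=
    Kp.mul_mem (Kp.mul_mem (Kp.mul_mem (Kp.mul_mem mT mB) mC) (Kp.inv_mem mB)) (Kp.inv_mem mT)
  have ka : ((aW b c t, aW u v w) : G × (MT n)ˣ) ∈ Kp :=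
    Kp.mul_mem (Kp.mul_mem (Kp.inv_mem mT) (Kp.mul_mem (Kp.mul_mem (Kp.inv_mem kd) mB) kd)) mT
  have kp := Kp.mul_mem (Kp.mul_mem (Kp.mul_mem (Kp.inv_mem mC) (Kp.inv_mem kd)) mC) (Kp.inv_mem mB)
  have kq := Kp.mul_mem (Kp.mul_mem (Kp.mul_mem mB (Kp.inv_mem mC)) kd) mC
  have ks := Kp.mul_mem (Kp.mul_mem mT mB) (Kp.inv_mem mT)
  have k4 := Kp.mul_mem (Kp.mul_mem kp (Kp.inv_mem ka)) kq
  have k5 := Kp.mul_mem (Kp.mul_mem (Kp.mul_mem (Kp.mul_mem kp ka) kq) (Kp.mul_mem (Kp.inv_mem mB) (Kp.inv_mem ka))) kq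
  have q1 := eqv _ _ _ _ (Kp.mul_mem (Kp.mul_mem mB mB) mB) Kp.one_mem (by simpa [pow_succ] using r1)
  have q2 := eqv _ _ _ _ (Kp.mul_mem (Kp.mul_mem (Kp.mul_mem mC mC) mC) mC) Kp.one_mem (by simpa [pow_succ] using r2)
  have q3 := eqv _ _ _ _ (Kp.mul_mem (Kp.mul_mem (Kp.inv_mem mC) (Kp.inv_mem ks)) mC)
    (Kp.mul_mem (Kp.mul_mem mT k4) (Kp.inv_mem mT)) (by
      show c⁻¹ * (t * b * t⁻¹)⁻¹ * c = t * (c⁻¹ * (dW b c t)⁻¹ * c * b⁻¹ * (aW b c t)⁻¹ *
        (b * c⁻¹ * dW b c t * c)) * t⁻¹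
      rw [show (t * b * t⁻¹)⁻¹ = t * b⁻¹ * t⁻¹ by group, r3]
      simp only [X4, mul_assoc])
  have q4 := eqv _ _ _ _ (Kp.mul_mem (Kp.mul_mem (Kp.mul_mem (Kp.mul_mem (Kp.inv_mem mC) ks) mC) (Kp.inv_mem ks)) mC)
    k5 (by
      show c⁻¹ * (t * b * t⁻¹) * c * (t * b * t⁻¹)⁻¹ * c = c⁻¹ * (dW b c t)⁻¹ * c * b⁻¹ * aW b c t *
        (b * c⁻¹ * dW b c t * c) * (b⁻¹ * (aW b c t)⁻¹) * (b * c⁻¹ * dW b c t * c)
      rw [show (t * b * t⁻¹)⁻¹ = t * b⁻¹ * t⁻¹ by group, r4]
      simp only [X5, mul_assoc])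
  have R1 := (rB.mul rB).mul rB
  have R2 := ((rC.mul rC).mul rC).mul rC
  have R3 := (rC.inv.mul hs.inv).mul rC
  have R4 := (((rC.inv.mul hs).mul rC).mul hs.inv).mul rC
  have R3' := (rT.mul h4).mul rT.inv
  have o1 : ((1 : (MT n)ˣ) : MT n) = toM n (idM n) := by rw [toM_id, Units.val_one]
  refine List.Forall₂.cons ?_ (List.Forall₂.cons ?_ (List.Forall₂.cons ?_ (List.Forall₂.cons ?_ List.Forall₂.nil)))
  · exact (congrArg (fun M => M *ᵥ x) R1.e1).symm.trans (q1.trans (congrArg (fun M => M *ᵥ x) o1))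
  · exact (congrArg (fun M => M *ᵥ x) R2.e1).symm.trans (q2.trans (congrArg (fun M => M *ᵥ x) o1))
  · exact (congrArg (fun M => M *ᵥ x) R3.e1).symm.trans (q3.trans (congrArg (fun M => M *ᵥ x) R3'.e1))
  · exact (congrArg (fun M => M *ᵥ x) R4.e1).symm.trans (q4.trans (congrArg (fun M => M *ᵥ x) h5.e1))

theorem Z9_zero : toM 9 Z9 = 0 := by decide +kernel

theorem J9_row : ∀ (i : Fin 6) (j : Fin 9), toM 9 J9 (Fin.natAdd 3 i) j = if j = Fin.natAdd 3 i then 1 else 0 := by
  decide +kernel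

theorem mulVec_bk (M : MT (3 + d)) (y : Fin 3 ⊕ Fin d → K) :
    M *ᵥ (y ∘ finSumFinEquiv.symm) = (bk M *ᵥ y) ∘ finSumFinEquiv.symm := by
  funext i
  simp only [Matrix.mulVec, dotProduct, Function.comp, bk, Matrix.submatrix_apply, Equiv.apply_symm_apply]
  rw [← Equiv.sum_comp finSumFinEquiv.symm]
  refine Finset.sum_congr rfl fun j _ => ?_
  simp

/-- pairs acting compatibly -/
def pairs {G : Type} [Group G] (ρ : Representation K G (Fin 3 → K)) (z : G → Fin 3 → K) (hz : z ∈ Zc ρ)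
    (e : Fin d → K) : Subgroup (G × (MT (3 + d))ˣ) where
  carrier := {p | ∀ x : Fin 3 → K, bk (p.2 : MT (3 + d)) *ᵥ Sum.elim x e = Sum.elim (ρ p.1 x + z p.1) e}
  mul_mem' := by
    intro p q hp hq x
    show bk ((p.2 * q.2 : (MT (3 + d))ˣ) : MT (3 + d)) *ᵥ Sum.elim x e =
      Sum.elim (ρ (p.1 * q.1) x + z (p.1 * q.1)) e
    rw [Units.val_mul, bk_mul, ← Matrix.mulVec_mulVec, hq x, hp, hz p.1 q.1, map_mul,
      Module.End.mul_apply, map_add]
    congr 1; abel
  one_mem' := by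
    intro x
    show bk ((1 : (MT (3 + d))ˣ) : MT (3 + d)) *ᵥ Sum.elim x e = Sum.elim (ρ 1 x + z 1) e
    rw [Units.val_one, bk_one, Matrix.one_mulVec, map_one, Zc_one hz, add_zero, Module.End.one_apply]
  inv_mem' := by
    intro p hp x
    show bk ((p.2⁻¹ : (MT (3 + d))ˣ) : MT (3 + d)) *ᵥ Sum.elim x e = Sum.elim (ρ p.1⁻¹ x + z p.1⁻¹) e
    have h1 := hp (ρ p.1⁻¹ (x - z p.1))
    have h2 : ρ p.1 (ρ p.1⁻¹ (x - z p.1)) + z p.1 = x := by
      rw [← Module.End.mul_apply, ← map_mul, mul_inv_cancel, map_one, Module.End.one_apply, sub_add_cancel]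
    rw [h2] at h1
    rw [← h1, Matrix.mulVec_mulVec, ← bk_mul, ← Units.val_mul, inv_mul_cancel, Units.val_one, bk_one,
      Matrix.one_mulVec, Zc_inv hz, map_sub, sub_eq_add_neg]

theorem mem_pairs {G : Type} [Group G] (ρ : Representation K G (Fin 3 → K)) (z : G → Fin 3 → K) (hz : z ∈ Zc ρ)
    (e : Fin d → K) (g : G) (M : (MT (3 + d))ˣ) (U : Matrix (Fin 3) (Fin d) K)
    (h : bk (M : MT (3 + d)) = fromBlocks (LinearMap.toMatrix' (ρ g)) U 0 1) (hU : U *ᵥ e = z g) :
    ((g, M) : G × (MT (3 + d))ˣ) ∈ pairs ρ z hz e := by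
  intro x
  show bk (M : MT (3 + d)) *ᵥ _ = _
  rw [h, Matrix.fromBlocks_mulVec]
  simp only [Sum.elim_comp_inl, Sum.elim_comp_inr, Matrix.zero_mulVec, Matrix.one_mulVec, zero_add]
  rw [← Matrix.toLin'_apply, Matrix.toLin'_toMatrix', hU]

theorem fin_zero {G : Type} [Group G] (b c t : G) (hR : Rel b c t) (hgen : Subgroup.closure {b, c, t} = ⊤)
    (ρ : Representation K G (Fin 3 → K)) (B C T : LE) (P : List LM)
    (vB : valid 9 B = true) (vC : valid 9 C = true) (vT : valid 9 T = true)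
    (hb : bk (d := 6) (toM 9 B.m) = fromBlocks (LinearMap.toMatrix' (ρ b)) E1 0 1)
    (hc : bk (d := 6) (toM 9 C.m) = fromBlocks (LinearMap.toMatrix' (ρ c)) E2 0 1)
    (ht : bk (d := 6) (toM 9 T.m) = fromBlocks (LinearMap.toMatrix' (ρ t)) 0 0 1)
    (hchk : chkFin 9 B C T P Z9 J9 = true) :
    ∀ z ∈ Zt ρ t, z = 0 := by
  intro z hz
  obtain ⟨hz1, hz2⟩ := hz
  obtain ⟨e, he⟩ : ∃ e : Fin 6 → K, e = Fin.append (z b) (z c) := ⟨_, rfl⟩
  have rB := toU_rp _ B vB
  have rC := toU_rp _ C vC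
  have rT := toU_rp _ T vT
  have mB := mem_pairs (d := 6) ρ z hz1 e b (toU 9 B vB) E1 hb (by rw [he, E1_mul])
  have mC := mem_pairs (d := 6) ρ z hz1 e c (toU 9 C vC) E2 hc (by rw [he, E2_mul])
  have mT := mem_pairs (d := 6) ρ z hz1 e t (toU 9 T vT) 0 ht (by rw [Matrix.zero_mulVec, hz2])
  obtain ⟨y, hy⟩ : ∃ y : Fin 9 → K, y = Sum.elim (0 : Fin 3 → K) e ∘ (finSumFinEquiv (m := 3) (n := 6)).symm :=
    ⟨_, rfl⟩
  have eqv : ∀ (g g' : G) (M M' : (MT 9)ˣ), (g, M) ∈ pairs (d := 6) ρ z hz1 e → (g', M') ∈ pairs (d := 6) ρ z hz1 e →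
      g = g' → (M : MT 9) *ᵥ y = (M' : MT 9) *ᵥ y := by
    intro g g' M M' h h' hg
    subst hg
    have h1 := mulVec_bk (d := 6) (M : MT 9) (Sum.elim (0 : Fin 3 → K) e)
    have h2 := mulVec_bk (d := 6) (M' : MT 9) (Sum.elim (0 : Fin 3 → K) e)
    rw [h 0] at h1
    rw [h' 0] at h2
    rw [hy]
    exact h1.trans h2.symm
  have fa := forall_rel (n := 9) hR (pairs (d := 6) ρ z hz1 e) y eqv rB rC rT mB mC mT
  simp only [chkFin, Bool.and_eq_true, beq_iff_eq, List.all_eq_true] at hchk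
  obtain ⟨⟨⟨sZ, sJ⟩, sP⟩, hlin⟩ := hchk
  have fin := lin_apply (n := 9) y P (lhsL 9 B C T) (rhsL 9 B C T) Z9 J9 sP
    (lhs_shp rB rC rT) (rhs_shp rB rC rT) sZ sJ fa (by rw [hlin])
  have e0 : e = 0 := by
    funext i
    have h := congrFun fin (Fin.natAdd 3 i)
    rw [Z9_zero, Matrix.zero_mulVec] at h
    have h' : (toM 9 J9 *ᵥ y) (Fin.natAdd 3 i) = y (Fin.natAdd 3 i) := by
      simp only [Matrix.mulVec, dotProduct, J9_row]
      rw [Finset.sum_eq_single (Fin.natAdd 3 i)]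
      · rw [if_pos rfl, one_mul]
      · intro j _ hj
        rw [if_neg hj, zero_mul]
      · intro hh; exact absurd (Finset.mem_univ _) hh
    rw [h'] at h
    have hvi : y (Fin.natAdd 3 i) = e i := by
      rw [hy]
      show Sum.elim (0 : Fin 3 → K) e (finSumFinEquiv.symm (Fin.natAdd 3 i)) = e i
      rw [finSumFinEquiv_symm_apply_natAdd]; rfl
    rw [hvi] at h
    exact h.symm
  have zb : z b = 0 := by
    have := E1_mul (z b) (z c)
    rw [← he, e0, Matrix.mulVec_zero] at this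
    exact this.symm
  have zc : z c = 0 := by
    have := E2_mul (z b) (z c)
    rw [← he, e0, Matrix.mulVec_zero] at this
    exact this.symm
  refine Zc_ext hz1 (zero_mem _) _ hgen ?_
  intro s hs'
  simp only [Set.mem_insert_iff, Set.mem_singleton_iff] at hs'
  rcases hs' with rfl | rfl | rfl
  · exact zb
  · exact zc
  · exact hz2

end

section

open Matrix Multiplicative Module

theorem exists_hom {G : Type} [Group G] {b c t : G} (hG : IsUniv b c t) (n : ℕ) (B C T : LE)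
    (vB : valid n B = true) (vC : valid n C = true) (vT : valid n T = true) (h : relChk n B C T = true) :
    ∃ f : G →* (MT n)ˣ, (f b : MT n) = toM n B.m ∧ (f c : MT n) = toM n C.m ∧ (f t : MT n) = toM n T.m := by
  have rB := toU_rp _ B vB
  have rC := toU_rp _ C vC
  have rT := toU_rp _ T vT
  obtain ⟨f, h1, h2, h3⟩ := hG.2.2 _ _ _ _ (rel_of_chk rB rC rT h)
  exact ⟨f, by rw [h1, rB.e1], by rw [h2, rC.e1], by rw [h3, rT.e1]⟩

theorem fam_inst {G : Type} [Group G] {b c t : G} (hG : IsUniv b c t)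
    (ρ : Representation K G (Fin 3 → K)) (α : G →* Multiplicative ℤ)
    (hαb : α b = 1) (hαc : α c = 1) (hαt : α t = ofAdd 1)
    (d : ℕ) (B C T Q : LE) (Ub Uc : LM) (S1 S2 S3 S4 : LM)
    (vB : valid (3 + d) B = true) (vC : valid (3 + d) C = true) (vT : valid (3 + d) T = true)
    (vQ : valid d Q = true)
    (h : relChk (3 + d) B C T = true)
    (hb : bk (toM (3 + d) B.m) = fromBlocks (LinearMap.toMatrix' (ρ b)) (toR 3 d Ub) 0 1)
    (hc : bk (toM (3 + d) C.m) = fromBlocks (LinearMap.toMatrix' (ρ c)) (toR 3 d Uc) 0 1)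
    (ht : bk (toM (3 + d) T.m) = fromBlocks (LinearMap.toMatrix' (ρ t)) 0 0 (toM d Q.m))
    (hS : toR d 3 S1 * toR 3 d Ub + toR d 3 S2 * toR 3 d Uc + toR d 3 S3 * (toR 3 d Ub * toM d Q.m) +
      toR d 3 S4 * (toR 3 d Uc * toM d Q.m) = 1)
    [FiniteDimensional K (Zt (seqRep ρ α) t)] : d ≤ finrank K (Zt (seqRep ρ α) t) := by
  obtain ⟨f, h1, h2, h3⟩ := exists_hom hG (3 + d) B C T vB vC vT h
  have rQ := toU_rp _ Q vQ
  refine fam b c t hG.2.1 ρ α hαb hαc hαt f (toU d Q vQ) (toR 3 d Ub) (toR 3 d Uc) (by rw [h1, hb])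
    (by rw [h2, hc]) (by rw [h3, ht, rQ.e1]) ?_
  intro e e1 e2 e3 e4
  rw [rQ.e1] at e3 e4
  have := congrArg (fun M => M *ᵥ e) hS
  simp only [Matrix.add_mulVec, ← Matrix.mulVec_mulVec, e1, e2, e3, e4, Matrix.mulVec_zero, add_zero,
    Matrix.one_mulVec] at this
  exact this.symm

theorem fin_inst {G : Type} [Group G] {b c t : G} (hG : IsUniv b c t)
    (ρ : Representation K G (Fin 3 → K)) (α : G →* Multiplicative ℤ) (B C T : LE) (P : List LM)
    (vB : valid 9 B = true) (vC : valid 9 C = true) (vT : valid 9 T = true)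
    (hb : bk (d := 6) (toM 9 B.m) = fromBlocks (LinearMap.toMatrix' (ρ b)) E1 0 1)
    (hc : bk (d := 6) (toM 9 C.m) = fromBlocks (LinearMap.toMatrix' (ρ c)) E2 0 1)
    (ht : bk (d := 6) (toM 9 T.m) = fromBlocks (LinearMap.toMatrix' (ρ t)) 0 0 1)
    (hchk : chkFin 9 B C T P Z9 J9 = true) : FiniteDimensional K (Zt (seqRep ρ α) t) := by
  classical
  have hS : Subgroup.closure (({b, c, t} : Finset G) : Set G) = ⊤ := by
    rw [← hG.2.1]; congr 1; simp
  have htw : tw (chz (1 : Kˣ) α) ρ = ρ := by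
    refine MonoidHom.ext fun g => LinearMap.ext fun x => ?_
    show ((chz (1 : Kˣ) α g : Kˣ) : K) • ρ g x = ρ g x
    have : chz (1 : Kˣ) α g = 1 := by simp [chz]
    rw [this, Units.val_one, one_smul]
  refine A4 ρ α t ({b, c, t} : Finset G) hS 1 ?_
  rw [htw]
  exact fin_zero b c t hG.1 hG.2.1 ρ B C T P vB vC vT hb hc ht hchk

end

section

theorem mapF_eq {α β : Type} (f : α → β) (l : List α) : mapF f l = l.map f := by
  induction l with
  | nil => rfl
  | cons x l ih => rw [List.map_cons, ← ih]; rfl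

theorem dotF_eq (a : List ℕ) : ∀ b, dotF a b = dot a b := by
  induction a with
  | nil => intro b; cases b <;> rfl
  | cons x a ih =>
    intro b
    cases b with
    | nil => rfl
    | cons y b => rw [dot, ← ih]; rfl

theorem getF_eq {α : Type} (z : α) (l : List α) : ∀ n, getF z l n = l.getD n z := by
  induction l with
  | nil => intro n; rfl
  | cons x l ih =>
    intro n
    cases n with
    | zero => rfl
    | succ n => rw [List.getD_cons_succ, ← ih]; rfl

theorem rangeF_eq (n : ℕ) : rangeF n = List.range n := by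
  have h : ∀ (n : ℕ) (l : List ℕ), Nat.rec (motive := fun _ => List ℕ → List ℕ) (fun l => l)
      (fun m ih l => ih (m :: l)) n l = List.range n ++ l := by
    intro n
    induction n with
    | zero => intro l; rfl
    | succ n ih => intro l; rw [List.range_succ, List.append_assoc]; exact ih (n :: l)
  rw [rangeF, h, List.append_nil]

theorem mulF_eq (n : ℕ) : mulF n = mulM n := by
  funext A B
  simp only [mulF, trF, mapF_eq, dotF_eq, getF_eq, rangeF_eq, mulM, mulT, trM, colM]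

theorem eqR_eq (a : List ℕ) : ∀ b, eqR a b = (a == b) := by
  induction a with
  | nil => intro b; cases b <;> rfl
  | cons x a ih =>
    intro b
    cases b with
    | nil => rfl
    | cons y b =>
      have h1 : eqR (x :: a) (y :: b) = Bool.rec (motive := fun _ => Bool) false (eqR a b) (Nat.beq x y) := rfl
      have h2 : ((x :: a) == (y :: b)) = ((x == y) && (a == b)) := rfl
      have h3 : Nat.beq x y = (x == y) := by rw [Bool.eq_iff_iff, Nat.beq_eq, beq_iff_eq]
      rw [h1, h2, ih, h3]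
      cases (x == y) <;> rfl

theorem eqF_eq : eqF = fun a b => (a == b) := by
  funext a
  induction a with
  | nil => funext b; cases b <;> rfl
  | cons x a ih =>
    funext b
    cases b with
    | nil => rfl
    | cons y b =>
      have h1 : eqF (x :: a) (y :: b) = Bool.rec (motive := fun _ => Bool) false (eqF a b) (eqR x y) := rfl
      have h2 : ((x :: a) == (y :: b)) = ((x == y) && (a == b)) := rfl
      rw [h1, h2, ih, eqR_eq]
      cases (x == y) <;> rfl

theorem relF_eq (n : ℕ) (b c t : LE) : relF n b c t = relChk n b c t := by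
  rw [relF, mulF_eq, eqF_eq]; rfl

theorem linG_eq (n : ℕ) : ∀ (P A : List LM) (Z : LM), linG (mulM n) P A Z = lin n P A Z := by
  intro P
  induction P with
  | nil => intro A Z; cases A <;> rfl
  | cons p P ih =>
    intro A Z
    cases A with
    | nil => rfl
    | cons a A => rw [linG, lin, ih]

theorem chkF_eq (n : ℕ) (b c t : LE) (P : List LM) (Z J : LM) : chkF n b c t P Z J = chkFin n b c t P Z J := by
  rw [chkF, mulF_eq, eqF_eq, chkG, linG_eq, linG_eq]; rfl

theorem valF_eq (n : ℕ) (x : LE) : valF n x = valid n x := by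
  rw [valF, mulF_eq, eqF_eq]; rfl

end

section

open Matrix Multiplicative Module

theorem sclR_getD (k : ℕ) : ∀ (r : List ℕ) (j : ℕ), (((sclR k r).getD j 0 : ℕ) : K) = (k : K) * ((r.getD j 0 : ℕ) : K) := by
  intro r
  induction r with
  | nil => intro j; simp [sclR]
  | cons x r ih =>
    intro j
    cases j with
    | zero => simp [sclR]
    | succ j => simpa [sclR] using ih j

theorem toM_scl (n k : ℕ) (A : LM) : toM n (sclM k A) = (k : K) • toM n A := by
  have h : ∀ (A : LM) (i : ℕ) (j : ℕ), ((((sclM k A).getD i []).getD j 0 : ℕ) : K) =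
      (k : K) * ((((A.getD i []).getD j 0 : ℕ)) : K) := by
    intro A
    induction A with
    | nil => intro i j; simp [sclM]
    | cons r A ih =>
      intro i j
      cases i with
      | zero => simpa [sclM] using sclR_getD k r j
      | succ i => simpa [sclM] using ih i j
  ext i j
  rw [Matrix.smul_apply, smul_eq_mul]
  exact h A i j

theorem FamCert.apply {j d : ℕ} (hcert : FamCert j d) {G : Type} [Group G] {b c t : G} (hG : IsUniv b c t)
    (ρ : Representation K G (Fin 3 → K)) (α : G →* Multiplicative ℤ)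
    (hαb : α b = 1) (hαc : α c = 1) (hαt : α t = ofAdd 1)
    (hb : LinearMap.toMatrix' (ρ b) = toM 3 (sclM (16 ^ j) wb))
    (hc : LinearMap.toMatrix' (ρ c) = toM 3 (sclM (8 ^ j) wc))
    (ht : LinearMap.toMatrix' (ρ t) = toM 3 wt)
    [FiniteDimensional K (Zt (seqRep ρ α) t)] : d ≤ finrank K (Zt (seqRep ρ α) t) := by
  obtain ⟨B, C, T, Q, Ub, Uc, S1, S2, S3, S4, vB, vC, vT, vQ, h, h1, h2, h3, h4⟩ := hcert
  rw [valF_eq] at vB vC vT vQ
  rw [relF_eq] at h
  exact fam_inst hG ρ α hαb hαc hαt d B C T Q Ub Uc S1 S2 S3 S4 vB vC vT vQ h (by rw [hb, h1]) (by rw [hc, h2])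
    (by rw [ht, h3]) h4

theorem FinCert.apply {j : ℕ} (hcert : FinCert j) {G : Type} [Group G] {b c t : G} (hG : IsUniv b c t)
    (ρ : Representation K G (Fin 3 → K)) (α : G →* Multiplicative ℤ)
    (hb : LinearMap.toMatrix' (ρ b) = toM 3 (sclM (16 ^ j) wb))
    (hc : LinearMap.toMatrix' (ρ c) = toM 3 (sclM (8 ^ j) wc))
    (ht : LinearMap.toMatrix' (ρ t) = toM 3 wt) : FiniteDimensional K (Zt (seqRep ρ α) t) := by
  obtain ⟨B, C, T, P, vB, vC, vT, h1, h2, h3, h4⟩ := hcert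
  rw [valF_eq] at vB vC vT
  rw [chkF_eq] at h4
  exact fin_inst hG ρ α B C T P vB vC vT (by rw [hb, h1]) (by rw [hc, h2]) (by rw [ht, h3]) h4

end

end Pool.Agent.Helper95.DFJ.F13
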