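import Pool.Agent.Helper95.DFJ.F13.Lib

/-!
# DFJ: data of the certificates for the twists 0, 1, 2
-/

namespace Pool.Agent.Helper95.DFJ.F13.D0

open Matrix

def B : LE := ⟨[[1, 0, 0, 0, 0, 0, 0, 0, 0, 0, 0, 0], [12, 12, 12, 1, 0, 0, 0, 0, 0, 0, 0, 0], [0, 1, 0, 0, 1, 0, 0, 0, 0, 0, 0, 0], [0, 0, 0, 1, 0, 0, 0, 0, 0, 0, 0, 0], [0, 0, 0, 0, 1, 0, 0, 0, 0, 0, 0, 0], [0, 0, 0, 0, 0, 1, 0, 0, 0, 0, 0, 0], [0, 0, 0, 0, 0, 0, 1, 0, 0, 0, 0, 0], [0, 0, 0, 0, 0, 0, 0, 1, 0, 0, 0, 0], [0, 0, 0, 0, 0, 0, 0, 0, 1, 0, 0, 0], [0, 0, 0, 0, 0, 0, 0, 0, 0, 1, 0, 0], [0, 0, 0, 0, 0, 0, 0, 0, 0, 0, 1, 0], [0, 0, 0, 0, 0, 0, 0, 0, 0, 0, 0, 1]],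
  [[1, 0, 0, 0, 0, 0, 0, 0, 0, 0, 0, 0], [0, 0, 1, 0, 12, 0, 0, 0, 0, 0, 0, 0], [12, 12, 12, 1, 1, 0, 0, 0, 0, 0, 0, 0], [0, 0, 0, 1, 0, 0, 0, 0, 0, 0, 0, 0], [0, 0, 0, 0, 1, 0, 0, 0, 0, 0, 0, 0], [0, 0, 0, 0, 0, 1, 0, 0, 0, 0, 0, 0], [0, 0, 0, 0, 0, 0, 1, 0, 0, 0, 0, 0], [0, 0, 0, 0, 0, 0, 0, 1, 0, 0, 0, 0], [0, 0, 0, 0, 0, 0, 0, 0, 1, 0, 0, 0], [0, 0, 0, 0, 0, 0, 0, 0, 0, 1, 0, 0], [0, 0, 0, 0, 0, 0, 0, 0, 0, 0, 1, 0], [0, 0, 0, 0, 0, 0, 0, 0, 0, 0, 0, 1]]⟩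
def C : LE := ⟨[[12, 12, 12, 0, 0, 1, 0, 0, 0, 0, 0, 0], [1, 0, 0, 0, 0, 0, 1, 0, 0, 0, 0, 0], [0, 1, 0, 0, 0, 0, 0, 1, 0, 0, 0, 0], [0, 0, 0, 1, 0, 0, 0, 0, 0, 0, 0, 0], [0, 0, 0, 0, 1, 0, 0, 0, 0, 0, 0, 0], [0, 0, 0, 0, 0, 1, 0, 0, 0, 0, 0, 0], [0, 0, 0, 0, 0, 0, 1, 0, 0, 0, 0, 0], [0, 0, 0, 0, 0, 0, 0, 1, 0, 0, 0, 0], [0, 0, 0, 0, 0, 0, 0, 0, 1, 0, 0, 0], [0, 0, 0, 0, 0, 0, 0, 0, 0, 1, 0, 0], [0, 0, 0, 0, 0, 0, 0, 0, 0, 0, 1, 0], [0, 0, 0, 0, 0, 0, 0, 0, 0, 0, 0, 1]],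
  [[0, 1, 0, 0, 0, 0, 12, 0, 0, 0, 0, 0], [0, 0, 1, 0, 0, 0, 0, 12, 0, 0, 0, 0], [12, 12, 12, 0, 0, 1, 1, 1, 0, 0, 0, 0], [0, 0, 0, 1, 0, 0, 0, 0, 0, 0, 0, 0], [0, 0, 0, 0, 1, 0, 0, 0, 0, 0, 0, 0], [0, 0, 0, 0, 0, 1, 0, 0, 0, 0, 0, 0], [0, 0, 0, 0, 0, 0, 1, 0, 0, 0, 0, 0], [0, 0, 0, 0, 0, 0, 0, 1, 0, 0, 0, 0], [0, 0, 0, 0, 0, 0, 0, 0, 1, 0, 0, 0], [0, 0, 0, 0, 0, 0, 0, 0, 0, 1, 0, 0], [0, 0, 0, 0, 0, 0, 0, 0, 0, 0, 1, 0], [0, 0, 0, 0, 0, 0, 0, 0, 0, 0, 0, 1]]⟩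
def T : LE := ⟨[[0, 0, 1, 0, 0, 0, 0, 0, 0, 0, 0, 0], [1, 0, 0, 0, 0, 0, 0, 0, 0, 0, 0, 0], [12, 12, 12, 0, 0, 0, 0, 0, 0, 0, 0, 0], [0, 0, 0, 0, 0, 0, 0, 0, 1, 0, 0, 0], [0, 0, 0, 0, 0, 0, 0, 0, 0, 1, 0, 0], [0, 0, 0, 0, 0, 0, 0, 0, 0, 0, 1, 0], [0, 0, 0, 0, 0, 0, 0, 0, 0, 0, 0, 1], [0, 0, 0, 0, 0, 12, 8, 4, 0, 0, 4, 8], [0, 0, 0, 12, 1, 1, 6, 9, 12, 0, 9, 5], [0, 0, 0, 12, 11, 0, 4, 10, 12, 12, 8, 4], [0, 0, 0, 7, 8, 12, 2, 4, 6, 7, 4, 3], [0, 0, 0, 7, 5, 1, 10, 8, 9, 7, 8, 7]],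
  [[0, 1, 0, 0, 0, 0, 0, 0, 0, 0, 0, 0], [12, 12, 12, 0, 0, 0, 0, 0, 0, 0, 0, 0], [1, 0, 0, 0, 0, 0, 0, 0, 0, 0, 0, 0], [0, 0, 0, 0, 7, 11, 7, 1, 5, 12, 7, 3], [0, 0, 0, 0, 12, 2, 11, 4, 1, 1, 7, 10], [0, 0, 0, 12, 12, 2, 8, 8, 1, 1, 11, 6], [0, 0, 0, 1, 8, 9, 9, 11, 5, 11, 0, 6], [0, 0, 0, 1, 0, 1, 8, 3, 0, 1, 6, 9], [0, 0, 0, 1, 0, 0, 0, 0, 0, 0, 0, 0], [0, 0, 0, 0, 1, 0, 0, 0, 0, 0, 0, 0], [0, 0, 0, 0, 0, 1, 0, 0, 0, 0, 0, 0], [0, 0, 0, 0, 0, 0, 1, 0, 0, 0, 0, 0]]⟩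
def Q : LE := ⟨[[0, 0, 0, 0, 0, 1, 0, 0, 0], [0, 0, 0, 0, 0, 0, 1, 0, 0], [0, 0, 0, 0, 0, 0, 0, 1, 0], [0, 0, 0, 0, 0, 0, 0, 0, 1], [0, 0, 12, 8, 4, 0, 0, 4, 8], [12, 1, 1, 6, 9, 12, 0, 9, 5], [12, 11, 0, 4, 10, 12, 12, 8, 4], [7, 8, 12, 2, 4, 6, 7, 4, 3], [7, 5, 1, 10, 8, 9, 7, 8, 7]],
  [[0, 7, 11, 7, 1, 5, 12, 7, 3], [0, 12, 2, 11, 4, 1, 1, 7, 10], [12, 12, 2, 8, 8, 1, 1, 11, 6], [1, 8, 9, 9, 11, 5, 11, 0, 6], [1, 0, 1, 8, 3, 0, 1, 6, 9], [1, 0, 0, 0, 0, 0, 0, 0, 0], [0, 1, 0, 0, 0, 0, 0, 0, 0], [0, 0, 1, 0, 0, 0, 0, 0, 0], [0, 0, 0, 1, 0, 0, 0, 0, 0]]⟩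
def Ub : LM := [[0, 0, 0, 0, 0, 0, 0, 0, 0], [1, 0, 0, 0, 0, 0, 0, 0, 0], [0, 1, 0, 0, 0, 0, 0, 0, 0]]
def Uc : LM := [[0, 0, 1, 0, 0, 0, 0, 0, 0], [0, 0, 0, 1, 0, 0, 0, 0, 0], [0, 0, 0, 0, 1, 0, 0, 0, 0]]
def S1 : LM := [[0, 1, 0], [0, 0, 1], [0, 0, 0], [0, 0, 0], [0, 0, 0], [0, 0, 0], [0, 0, 0], [0, 0, 0], [0, 0, 0]]
def S2 : LM := [[0, 0, 0], [0, 0, 0], [1, 0, 0], [0, 1, 0], [0, 0, 1], [0, 0, 0], [0, 0, 0], [0, 0, 0], [0, 0, 0]]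
def S3 : LM := [[0, 0, 0], [0, 0, 0], [0, 0, 0], [0, 0, 0], [0, 0, 0], [0, 1, 0], [0, 0, 1], [0, 0, 0], [0, 0, 0]]
def S4 : LM := [[0, 0, 0], [0, 0, 0], [0, 0, 0], [0, 0, 0], [0, 0, 0], [0, 0, 0], [0, 0, 0], [1, 0, 0], [0, 1, 0]]

theorem fam : FamCert 0 9 :=
  ⟨B, C, T, Q, Ub, Uc, S1, S2, S3, S4, by decide +kernel, by decide +kernel, by decide +kernel,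
    by decide +kernel, by decide +kernel, by decide +kernel, by decide +kernel, by decide +kernel,
    by decide +kernel⟩

def B9 : LE := ⟨[[1, 0, 0, 1, 0, 0, 0, 0, 0], [12, 12, 12, 0, 1, 0, 0, 0, 0], [0, 1, 0, 0, 0, 1, 0, 0, 0], [0, 0, 0, 1, 0, 0, 0, 0, 0], [0, 0, 0, 0, 1, 0, 0, 0, 0], [0, 0, 0, 0, 0, 1, 0, 0, 0], [0, 0, 0, 0, 0, 0, 1, 0, 0], [0, 0, 0, 0, 0, 0, 0, 1, 0], [0, 0, 0, 0, 0, 0, 0, 0, 1]],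
  [[1, 0, 0, 12, 0, 0, 0, 0, 0], [0, 0, 1, 0, 0, 12, 0, 0, 0], [12, 12, 12, 1, 1, 1, 0, 0, 0], [0, 0, 0, 1, 0, 0, 0, 0, 0], [0, 0, 0, 0, 1, 0, 0, 0, 0], [0, 0, 0, 0, 0, 1, 0, 0, 0], [0, 0, 0, 0, 0, 0, 1, 0, 0], [0, 0, 0, 0, 0, 0, 0, 1, 0], [0, 0, 0, 0, 0, 0, 0, 0, 1]]⟩
def C9 : LE := ⟨[[12, 12, 12, 0, 0, 0, 1, 0, 0], [1, 0, 0, 0, 0, 0, 0, 1, 0], [0, 1, 0, 0, 0, 0, 0, 0, 1], [0, 0, 0, 1, 0, 0, 0, 0, 0], [0, 0, 0, 0, 1, 0, 0, 0, 0], [0, 0, 0, 0, 0, 1, 0, 0, 0], [0, 0, 0, 0, 0, 0, 1, 0, 0], [0, 0, 0, 0, 0, 0, 0, 1, 0], [0, 0, 0, 0, 0, 0, 0, 0, 1]],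
  [[0, 1, 0, 0, 0, 0, 0, 12, 0], [0, 0, 1, 0, 0, 0, 0, 0, 12], [12, 12, 12, 0, 0, 0, 1, 1, 1], [0, 0, 0, 1, 0, 0, 0, 0, 0], [0, 0, 0, 0, 1, 0, 0, 0, 0], [0, 0, 0, 0, 0, 1, 0, 0, 0], [0, 0, 0, 0, 0, 0, 1, 0, 0], [0, 0, 0, 0, 0, 0, 0, 1, 0], [0, 0, 0, 0, 0, 0, 0, 0, 1]]⟩
def T9 : LE := ⟨[[0, 0, 1, 0, 0, 0, 0, 0, 0], [1, 0, 0, 0, 0, 0, 0, 0, 0], [12, 12, 12, 0, 0, 0, 0, 0, 0], [0, 0, 0, 1, 0, 0, 0, 0, 0], [0, 0, 0, 0, 1, 0, 0, 0, 0], [0, 0, 0, 0, 0, 1, 0, 0, 0], [0, 0, 0, 0, 0, 0, 1, 0, 0], [0, 0, 0, 0, 0, 0, 0, 1, 0], [0, 0, 0, 0, 0, 0, 0, 0, 1]],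
  [[0, 1, 0, 0, 0, 0, 0, 0, 0], [12, 12, 12, 0, 0, 0, 0, 0, 0], [1, 0, 0, 0, 0, 0, 0, 0, 0], [0, 0, 0, 1, 0, 0, 0, 0, 0], [0, 0, 0, 0, 1, 0, 0, 0, 0], [0, 0, 0, 0, 0, 1, 0, 0, 0], [0, 0, 0, 0, 0, 0, 1, 0, 0], [0, 0, 0, 0, 0, 0, 0, 1, 0], [0, 0, 0, 0, 0, 0, 0, 0, 1]]⟩
def P1 : LM := [[0, 0, 0, 0, 0, 0, 0, 0, 0], [0, 0, 0, 0, 0, 0, 0, 0, 0], [0, 0, 0, 0, 0, 0, 0, 0, 0], [9, 0, 0, 0, 0, 0, 0, 0, 0], [9, 0, 0, 0, 0, 0, 0, 0, 0], [11, 0, 0, 0, 0, 0, 0, 0, 0], [4, 0, 0, 0, 0, 0, 0, 0, 0], [8, 0, 0, 0, 0, 0, 0, 0, 0], [10, 0, 0, 0, 0, 0, 0, 0, 0]]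
def P2 : LM := [[0, 0, 0, 0, 0, 0, 0, 0, 0], [0, 0, 0, 0, 0, 0, 0, 0, 0], [0, 0, 0, 0, 0, 0, 0, 0, 0], [0, 0, 0, 0, 0, 0, 0, 0, 0], [0, 0, 0, 0, 0, 0, 0, 0, 0], [0, 0, 0, 0, 0, 0, 0, 0, 0], [0, 0, 0, 0, 0, 0, 0, 0, 0], [0, 0, 0, 0, 0, 0, 0, 0, 0], [0, 0, 0, 0, 0, 0, 0, 0, 0]]
def P3 : LM := [[0, 0, 0, 0, 0, 0, 0, 0, 0], [0, 0, 0, 0, 0, 0, 0, 0, 0], [0, 0, 0, 0, 0, 0, 0, 0, 0], [0, 0, 0, 0, 0, 0, 0, 0, 0], [0, 10, 5, 0, 0, 0, 0, 0, 0], [0, 4, 3, 0, 0, 0, 0, 0, 0], [0, 3, 5, 0, 0, 0, 0, 0, 0], [0, 5, 10, 0, 0, 0, 0, 0, 0], [0, 5, 11, 0, 0, 0, 0, 0, 0]]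
def P4 : LM := [[0, 0, 0, 0, 0, 0, 0, 0, 0], [0, 0, 0, 0, 0, 0, 0, 0, 0], [0, 0, 0, 0, 0, 0, 0, 0, 0], [0, 0, 0, 0, 0, 0, 0, 0, 0], [0, 0, 7, 0, 0, 0, 0, 0, 0], [11, 11, 4, 0, 0, 0, 0, 0, 0], [0, 10, 3, 0, 0, 0, 0, 0, 0], [11, 1, 2, 0, 0, 0, 0, 0, 0], [9, 12, 12, 0, 0, 0, 0, 0, 0]]

theorem fin : FinCert 0 :=
  ⟨B9, C9, T9, [P1, P2, P3, P4], by decide +kernel, by decide +kernel, by decide +kernel,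
    by decide +kernel, by decide +kernel, by decide +kernel, by decide +kernel⟩

end Pool.Agent.Helper95.DFJ.F13.D0

namespace Pool.Agent.Helper95.DFJ.F13.D1

open Matrix

def B : LE := ⟨[[3, 0, 0, 1, 0, 0, 0, 0, 0, 0, 0], [10, 10, 10, 0, 1, 0, 0, 0, 0, 0, 0], [0, 3, 0, 7, 9, 0, 0, 0, 0, 0, 0], [0, 0, 0, 1, 0, 0, 0, 0, 0, 0, 0], [0, 0, 0, 0, 1, 0, 0, 0, 0, 0, 0], [0, 0, 0, 0, 0, 1, 0, 0, 0, 0, 0], [0, 0, 0, 0, 0, 0, 1, 0, 0, 0, 0], [0, 0, 0, 0, 0, 0, 0, 1, 0, 0, 0], [0, 0, 0, 0, 0, 0, 0, 0, 1, 0, 0], [0, 0, 0, 0, 0, 0, 0, 0, 0, 1, 0], [0, 0, 0, 0, 0, 0, 0, 0, 0, 0, 1]],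
  [[9, 0, 0, 4, 0, 0, 0, 0, 0, 0, 0], [0, 0, 9, 2, 10, 0, 0, 0, 0, 0, 0], [4, 4, 4, 7, 12, 0, 0, 0, 0, 0, 0], [0, 0, 0, 1, 0, 0, 0, 0, 0, 0, 0], [0, 0, 0, 0, 1, 0, 0, 0, 0, 0, 0], [0, 0, 0, 0, 0, 1, 0, 0, 0, 0, 0], [0, 0, 0, 0, 0, 0, 1, 0, 0, 0, 0], [0, 0, 0, 0, 0, 0, 0, 1, 0, 0, 0], [0, 0, 0, 0, 0, 0, 0, 0, 1, 0, 0], [0, 0, 0, 0, 0, 0, 0, 0, 0, 1, 0], [0, 0, 0, 0, 0, 0, 0, 0, 0, 0, 1]]⟩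
def C : LE := ⟨[[5, 5, 5, 0, 0, 1, 0, 0, 0, 0, 0], [8, 0, 0, 0, 0, 0, 1, 0, 0, 0, 0], [0, 8, 0, 0, 0, 5, 4, 0, 0, 0, 0], [0, 0, 0, 1, 0, 0, 0, 0, 0, 0, 0], [0, 0, 0, 0, 1, 0, 0, 0, 0, 0, 0], [0, 0, 0, 0, 0, 1, 0, 0, 0, 0, 0], [0, 0, 0, 0, 0, 0, 1, 0, 0, 0, 0], [0, 0, 0, 0, 0, 0, 0, 1, 0, 0, 0], [0, 0, 0, 0, 0, 0, 0, 0, 1, 0, 0], [0, 0, 0, 0, 0, 0, 0, 0, 0, 1, 0], [0, 0, 0, 0, 0, 0, 0, 0, 0, 0, 1]],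
  [[0, 5, 0, 0, 0, 0, 8, 0, 0, 0, 0], [0, 0, 5, 0, 0, 1, 6, 0, 0, 0, 0], [8, 8, 8, 0, 0, 4, 12, 0, 0, 0, 0], [0, 0, 0, 1, 0, 0, 0, 0, 0, 0, 0], [0, 0, 0, 0, 1, 0, 0, 0, 0, 0, 0], [0, 0, 0, 0, 0, 1, 0, 0, 0, 0, 0], [0, 0, 0, 0, 0, 0, 1, 0, 0, 0, 0], [0, 0, 0, 0, 0, 0, 0, 1, 0, 0, 0], [0, 0, 0, 0, 0, 0, 0, 0, 1, 0, 0], [0, 0, 0, 0, 0, 0, 0, 0, 0, 1, 0], [0, 0, 0, 0, 0, 0, 0, 0, 0, 0, 1]]⟩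
def T : LE := ⟨[[0, 0, 1, 0, 0, 0, 0, 0, 0, 0, 0], [1, 0, 0, 0, 0, 0, 0, 0, 0, 0, 0], [12, 12, 12, 0, 0, 0, 0, 0, 0, 0, 0], [0, 0, 0, 0, 0, 0, 0, 1, 0, 0, 0], [0, 0, 0, 0, 0, 0, 0, 0, 1, 0, 0], [0, 0, 0, 0, 0, 0, 0, 0, 0, 1, 0], [0, 0, 0, 0, 0, 0, 0, 0, 0, 0, 1], [0, 0, 0, 7, 0, 12, 9, 12, 8, 5, 11], [0, 0, 0, 8, 5, 7, 2, 1, 10, 6, 6], [0, 0, 0, 7, 0, 12, 8, 10, 8, 2, 5], [0, 0, 0, 0, 12, 12, 1, 6, 0, 9, 2]],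
  [[0, 1, 0, 0, 0, 0, 0, 0, 0, 0, 0], [12, 12, 12, 0, 0, 0, 0, 0, 0, 0, 0], [1, 0, 0, 0, 0, 0, 0, 0, 0, 0, 0], [0, 0, 0, 11, 0, 3, 11, 9, 3, 10, 2], [0, 0, 0, 11, 5, 7, 1, 8, 5, 3, 11], [0, 0, 0, 6, 8, 12, 8, 6, 8, 9, 1], [0, 0, 0, 11, 0, 10, 7, 1, 0, 12, 0], [0, 0, 0, 1, 0, 0, 0, 0, 0, 0, 0], [0, 0, 0, 0, 1, 0, 0, 0, 0, 0, 0], [0, 0, 0, 0, 0, 1, 0, 0, 0, 0, 0], [0, 0, 0, 0, 0, 0, 1, 0, 0, 0, 0]]⟩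
def Q : LE := ⟨[[0, 0, 0, 0, 1, 0, 0, 0], [0, 0, 0, 0, 0, 1, 0, 0], [0, 0, 0, 0, 0, 0, 1, 0], [0, 0, 0, 0, 0, 0, 0, 1], [7, 0, 12, 9, 12, 8, 5, 11], [8, 5, 7, 2, 1, 10, 6, 6], [7, 0, 12, 8, 10, 8, 2, 5], [0, 12, 12, 1, 6, 0, 9, 2]],
  [[11, 0, 3, 11, 9, 3, 10, 2], [11, 5, 7, 1, 8, 5, 3, 11], [6, 8, 12, 8, 6, 8, 9, 1], [11, 0, 10, 7, 1, 0, 12, 0], [1, 0, 0, 0, 0, 0, 0, 0], [0, 1, 0, 0, 0, 0, 0, 0], [0, 0, 1, 0, 0, 0, 0, 0], [0, 0, 0, 1, 0, 0, 0, 0]]⟩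
def Ub : LM := [[1, 0, 0, 0, 0, 0, 0, 0], [0, 1, 0, 0, 0, 0, 0, 0], [7, 9, 0, 0, 0, 0, 0, 0]]
def Uc : LM := [[0, 0, 1, 0, 0, 0, 0, 0], [0, 0, 0, 1, 0, 0, 0, 0], [0, 0, 5, 4, 0, 0, 0, 0]]
def S1 : LM := [[1, 0, 0], [0, 1, 0], [0, 0, 0], [0, 0, 0], [0, 0, 0], [0, 0, 0], [0, 0, 0], [0, 0, 0]]
def S2 : LM := [[0, 0, 0], [0, 0, 0], [1, 0, 0], [0, 1, 0], [0, 0, 0], [0, 0, 0], [0, 0, 0], [0, 0, 0]]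
def S3 : LM := [[0, 0, 0], [0, 0, 0], [0, 0, 0], [0, 0, 0], [1, 0, 0], [0, 1, 0], [0, 0, 0], [0, 0, 0]]
def S4 : LM := [[0, 0, 0], [0, 0, 0], [0, 0, 0], [0, 0, 0], [0, 0, 0], [0, 0, 0], [1, 0, 0], [0, 1, 0]]

theorem fam : FamCert 1 8 :=
  ⟨B, C, T, Q, Ub, Uc, S1, S2, S3, S4, by decide +kernel, by decide +kernel, by decide +kernel,
    by decide +kernel, by decide +kernel, by decide +kernel, by decide +kernel, by decide +kernel,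
    by decide +kernel⟩

def B9 : LE := ⟨[[3, 0, 0, 1, 0, 0, 0, 0, 0], [10, 10, 10, 0, 1, 0, 0, 0, 0], [0, 3, 0, 0, 0, 1, 0, 0, 0], [0, 0, 0, 1, 0, 0, 0, 0, 0], [0, 0, 0, 0, 1, 0, 0, 0, 0], [0, 0, 0, 0, 0, 1, 0, 0, 0], [0, 0, 0, 0, 0, 0, 1, 0, 0], [0, 0, 0, 0, 0, 0, 0, 1, 0], [0, 0, 0, 0, 0, 0, 0, 0, 1]],
  [[9, 0, 0, 4, 0, 0, 0, 0, 0], [0, 0, 9, 0, 0, 4, 0, 0, 0], [4, 4, 4, 9, 9, 9, 0, 0, 0], [0, 0, 0, 1, 0, 0, 0, 0, 0], [0, 0, 0, 0, 1, 0, 0, 0, 0], [0, 0, 0, 0, 0, 1, 0, 0, 0], [0, 0, 0, 0, 0, 0, 1, 0, 0], [0, 0, 0, 0, 0, 0, 0, 1, 0], [0, 0, 0, 0, 0, 0, 0, 0, 1]]⟩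
def C9 : LE := ⟨[[5, 5, 5, 0, 0, 0, 1, 0, 0], [8, 0, 0, 0, 0, 0, 0, 1, 0], [0, 8, 0, 0, 0, 0, 0, 0, 1], [0, 0, 0, 1, 0, 0, 0, 0, 0], [0, 0, 0, 0, 1, 0, 0, 0, 0], [0, 0, 0, 0, 0, 1, 0, 0, 0], [0, 0, 0, 0, 0, 0, 1, 0, 0], [0, 0, 0, 0, 0, 0, 0, 1, 0], [0, 0, 0, 0, 0, 0, 0, 0, 1]],
  [[0, 5, 0, 0, 0, 0, 0, 8, 0], [0, 0, 5, 0, 0, 0, 0, 0, 8], [8, 8, 8, 0, 0, 0, 5, 5, 5], [0, 0, 0, 1, 0, 0, 0, 0, 0], [0, 0, 0, 0, 1, 0, 0, 0, 0], [0, 0, 0, 0, 0, 1, 0, 0, 0], [0, 0, 0, 0, 0, 0, 1, 0, 0], [0, 0, 0, 0, 0, 0, 0, 1, 0], [0, 0, 0, 0, 0, 0, 0, 0, 1]]⟩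
def T9 : LE := ⟨[[0, 0, 1, 0, 0, 0, 0, 0, 0], [1, 0, 0, 0, 0, 0, 0, 0, 0], [12, 12, 12, 0, 0, 0, 0, 0, 0], [0, 0, 0, 1, 0, 0, 0, 0, 0], [0, 0, 0, 0, 1, 0, 0, 0, 0], [0, 0, 0, 0, 0, 1, 0, 0, 0], [0, 0, 0, 0, 0, 0, 1, 0, 0], [0, 0, 0, 0, 0, 0, 0, 1, 0], [0, 0, 0, 0, 0, 0, 0, 0, 1]],
  [[0, 1, 0, 0, 0, 0, 0, 0, 0], [12, 12, 12, 0, 0, 0, 0, 0, 0], [1, 0, 0, 0, 0, 0, 0, 0, 0], [0, 0, 0, 1, 0, 0, 0, 0, 0], [0, 0, 0, 0, 1, 0, 0, 0, 0], [0, 0, 0, 0, 0, 1, 0, 0, 0], [0, 0, 0, 0, 0, 0, 1, 0, 0], [0, 0, 0, 0, 0, 0, 0, 1, 0], [0, 0, 0, 0, 0, 0, 0, 0, 1]]⟩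
def P1 : LM := [[0, 0, 0, 0, 0, 0, 0, 0, 0], [0, 0, 0, 0, 0, 0, 0, 0, 0], [0, 0, 0, 0, 0, 0, 0, 0, 0], [0, 3, 0, 0, 0, 0, 0, 0, 0], [0, 7, 0, 0, 0, 0, 0, 0, 0], [0, 4, 0, 0, 0, 0, 0, 0, 0], [0, 9, 0, 0, 0, 0, 0, 0, 0], [0, 6, 0, 0, 0, 0, 0, 0, 0], [0, 4, 0, 0, 0, 0, 0, 0, 0]]
def P2 : LM := [[0, 0, 0, 0, 0, 0, 0, 0, 0], [0, 0, 0, 0, 0, 0, 0, 0, 0], [0, 0, 0, 0, 0, 0, 0, 0, 0], [9, 0, 0, 0, 0, 0, 0, 0, 0], [12, 0, 0, 0, 0, 0, 0, 0, 0], [2, 0, 0, 0, 0, 0, 0, 0, 0], [4, 0, 0, 0, 0, 0, 0, 0, 0], [8, 0, 0, 0, 0, 0, 0, 0, 0], [10, 0, 0, 0, 0, 0, 0, 0, 0]]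
def P3 : LM := [[0, 0, 0, 0, 0, 0, 0, 0, 0], [0, 0, 0, 0, 0, 0, 0, 0, 0], [0, 0, 0, 0, 0, 0, 0, 0, 0], [2, 5, 0, 0, 0, 0, 0, 0, 0], [8, 6, 0, 0, 0, 0, 0, 0, 0], [8, 11, 0, 0, 0, 0, 0, 0, 0], [1, 12, 0, 0, 0, 0, 0, 0, 0], [0, 5, 0, 0, 0, 0, 0, 0, 0], [5, 2, 0, 0, 0, 0, 0, 0, 0]]
def P4 : LM := [[0, 0, 0, 0, 0, 0, 0, 0, 0], [0, 0, 0, 0, 0, 0, 0, 0, 0], [0, 0, 0, 0, 0, 0, 0, 0, 0], [5, 6, 0, 0, 0, 0, 0, 0, 0], [2, 7, 0, 0, 0, 0, 0, 0, 0], [1, 1, 0, 0, 0, 0, 0, 0, 0], [4, 4, 0, 0, 0, 0, 0, 0, 0], [1, 9, 0, 0, 0, 0, 0, 0, 0], [11, 4, 0, 0, 0, 0, 0, 0, 0]]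

theorem fin : FinCert 1 :=
  ⟨B9, C9, T9, [P1, P2, P3, P4], by decide +kernel, by decide +kernel, by decide +kernel,
    by decide +kernel, by decide +kernel, by decide +kernel, by decide +kernel⟩

end Pool.Agent.Helper95.DFJ.F13.D1

namespace Pool.Agent.Helper95.DFJ.F13.D2

open Matrix

def B : LE := ⟨[[9, 0, 0, 1, 0, 0, 0, 0, 0, 0, 0], [4, 4, 4, 0, 1, 0, 0, 0, 0, 0, 0], [0, 9, 0, 5, 3, 0, 0, 0, 0, 0, 0], [0, 0, 0, 1, 0, 0, 0, 0, 0, 0, 0], [0, 0, 0, 0, 1, 0, 0, 0, 0, 0, 0], [0, 0, 0, 0, 0, 1, 0, 0, 0, 0, 0], [0, 0, 0, 0, 0, 0, 1, 0, 0, 0, 0], [0, 0, 0, 0, 0, 0, 0, 1, 0, 0, 0], [0, 0, 0, 0, 0, 0, 0, 0, 1, 0, 0], [0, 0, 0, 0, 0, 0, 0, 0, 0, 1, 0], [0, 0, 0, 0, 0, 0, 0, 0,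 0, 0, 1]],
  [[3, 0, 0, 10, 0, 0, 0, 0, 0, 0, 0], [0, 0, 3, 11, 4, 0, 0, 0, 0, 0, 0], [10, 10, 10, 5, 12, 0, 0, 0, 0, 0, 0], [0, 0, 0, 1, 0, 0, 0, 0, 0, 0, 0], [0, 0, 0, 0, 1, 0, 0, 0, 0, 0, 0], [0, 0, 0, 0, 0, 1, 0, 0, 0, 0, 0], [0, 0, 0, 0, 0, 0, 1, 0, 0, 0, 0], [0, 0, 0, 0, 0, 0, 0, 1, 0, 0, 0], [0, 0, 0, 0, 0, 0, 0, 0, 1, 0, 0], [0, 0, 0, 0, 0, 0, 0, 0, 0, 1, 0], [0, 0, 0, 0, 0, 0, 0, 0, 0, 0, 1]]⟩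
def C : LE := ⟨[[1, 1, 1, 0, 0, 1, 0, 0, 0, 0, 0], [12, 0, 0, 0, 0, 0, 1, 0, 0, 0, 0], [0, 12, 0, 0, 0, 12, 0, 0, 0, 0, 0], [0, 0, 0, 1, 0, 0, 0, 0, 0, 0, 0], [0, 0, 0, 0, 1, 0, 0, 0, 0, 0, 0], [0, 0, 0, 0, 0, 1, 0, 0, 0, 0, 0], [0, 0, 0, 0, 0, 0, 1, 0, 0, 0, 0], [0, 0, 0, 0, 0, 0, 0, 1, 0, 0, 0], [0, 0, 0, 0, 0, 0, 0, 0, 1, 0, 0], [0, 0, 0, 0, 0, 0, 0, 0, 0, 1, 0], [0, 0, 0, 0, 0, 0, 0, 0, 0, 0, 1]],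
  [[0, 12, 0, 0, 0, 0, 1, 0, 0, 0, 0], [0, 0, 12, 0, 0, 12, 0, 0, 0, 0, 0], [1, 1, 1, 0, 0, 0, 12, 0, 0, 0, 0], [0, 0, 0, 1, 0, 0, 0, 0, 0, 0, 0], [0, 0, 0, 0, 1, 0, 0, 0, 0, 0, 0], [0, 0, 0, 0, 0, 1, 0, 0, 0, 0, 0], [0, 0, 0, 0, 0, 0, 1, 0, 0, 0, 0], [0, 0, 0, 0, 0, 0, 0, 1, 0, 0, 0], [0, 0, 0, 0, 0, 0, 0, 0, 1, 0, 0], [0, 0, 0, 0, 0, 0, 0, 0, 0, 1, 0], [0, 0, 0, 0, 0, 0, 0, 0, 0, 0, 1]]⟩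
def T : LE := ⟨[[0, 0, 1, 0, 0, 0, 0, 0, 0, 0, 0], [1, 0, 0, 0, 0, 0, 0, 0, 0, 0, 0], [12, 12, 12, 0, 0, 0, 0, 0, 0, 0, 0], [0, 0, 0, 0, 0, 0, 0, 1, 0, 0, 0], [0, 0, 0, 0, 0, 0, 0, 0, 1, 0, 0], [0, 0, 0, 0, 0, 0, 0, 0, 0, 1, 0], [0, 0, 0, 0, 0, 0, 0, 0, 0, 0, 1], [0, 0, 0, 6, 0, 11, 1, 12, 2, 10, 1], [0, 0, 0, 6, 11, 4, 2, 1, 4, 6, 12], [0, 0, 0, 12, 1, 4, 11, 11, 3, 9, 8], [0, 0, 0, 0, 12, 8, 11, 8, 0, 6, 10]],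
  [[0, 1, 0, 0, 0, 0, 0, 0, 0, 0, 0], [12, 12, 12, 0, 0, 0, 0, 0, 0, 0, 0], [1, 0, 0, 0, 0, 0, 0, 0, 0, 0, 0], [0, 0, 0, 1, 11, 3, 3, 8, 3, 0, 7], [0, 0, 0, 6, 2, 3, 9, 5, 6, 1, 1], [0, 0, 0, 10, 12, 8, 0, 7, 12, 10, 12], [0, 0, 0, 2, 8, 1, 7, 6, 6, 7, 8], [0, 0, 0, 1, 0, 0, 0, 0, 0, 0, 0], [0, 0, 0, 0, 1, 0, 0, 0, 0, 0, 0], [0, 0, 0, 0, 0, 1, 0, 0, 0, 0, 0], [0, 0, 0, 0, 0, 0, 1, 0, 0, 0, 0]]⟩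
def Q : LE := ⟨[[0, 0, 0, 0, 1, 0, 0, 0], [0, 0, 0, 0, 0, 1, 0, 0], [0, 0, 0, 0, 0, 0, 1, 0], [0, 0, 0, 0, 0, 0, 0, 1], [6, 0, 11, 1, 12, 2, 10, 1], [6, 11, 4, 2, 1, 4, 6, 12], [12, 1, 4, 11, 11, 3, 9, 8], [0, 12, 8, 11, 8, 0, 6, 10]],
  [[1, 11, 3, 3, 8, 3, 0, 7], [6, 2, 3, 9, 5, 6, 1, 1], [10, 12, 8, 0, 7, 12, 10, 12], [2, 8, 1, 7, 6, 6, 7, 8], [1, 0, 0, 0, 0, 0, 0, 0], [0, 1, 0, 0, 0, 0, 0, 0], [0, 0, 1, 0, 0, 0, 0, 0], [0, 0, 0, 1, 0, 0, 0, 0]]⟩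
def Ub : LM := [[1, 0, 0, 0, 0, 0, 0, 0], [0, 1, 0, 0, 0, 0, 0, 0], [5, 3, 0, 0, 0, 0, 0, 0]]
def Uc : LM := [[0, 0, 1, 0, 0, 0, 0, 0], [0, 0, 0, 1, 0, 0, 0, 0], [0, 0, 12, 0, 0, 0, 0, 0]]
def S1 : LM := [[1, 0, 0], [0, 1, 0], [0, 0, 0], [0, 0, 0], [0, 0, 0], [0, 0, 0], [0, 0, 0], [0, 0, 0]]
def S2 : LM := [[0, 0, 0], [0, 0, 0], [1, 0, 0], [0, 1, 0], [0, 0, 0], [0, 0, 0], [0, 0, 0], [0, 0, 0]]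
def S3 : LM := [[0, 0, 0], [0, 0, 0], [0, 0, 0], [0, 0, 0], [1, 0, 0], [0, 1, 0], [0, 0, 0], [0, 0, 0]]
def S4 : LM := [[0, 0, 0], [0, 0, 0], [0, 0, 0], [0, 0, 0], [0, 0, 0], [0, 0, 0], [1, 0, 0], [0, 1, 0]]

theorem fam : FamCert 2 8 :=
  ⟨B, C, T, Q, Ub, Uc, S1, S2, S3, S4, by decide +kernel, by decide +kernel, by decide +kernel,
    by decide +kernel, by decide +kernel, by decide +kernel, by decide +kernel, by decide +kernel,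
    by decide +kernel⟩

def B9 : LE := ⟨[[9, 0, 0, 1, 0, 0, 0, 0, 0], [4, 4, 4, 0, 1, 0, 0, 0, 0], [0, 9, 0, 0, 0, 1, 0, 0, 0], [0, 0, 0, 1, 0, 0, 0, 0, 0], [0, 0, 0, 0, 1, 0, 0, 0, 0], [0, 0, 0, 0, 0, 1, 0, 0, 0], [0, 0, 0, 0, 0, 0, 1, 0, 0], [0, 0, 0, 0, 0, 0, 0, 1, 0], [0, 0, 0, 0, 0, 0, 0, 0, 1]],
  [[3, 0, 0, 10, 0, 0, 0, 0, 0], [0, 0, 3, 0, 0, 10, 0, 0, 0], [10, 10, 10, 3, 3, 3, 0, 0, 0], [0, 0, 0, 1, 0, 0, 0, 0, 0], [0, 0, 0, 0, 1, 0, 0, 0, 0], [0, 0, 0, 0, 0, 1, 0, 0, 0], [0, 0, 0, 0, 0, 0, 1, 0, 0], [0, 0, 0, 0, 0, 0, 0, 1, 0], [0, 0, 0, 0, 0, 0, 0, 0, 1]]⟩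
def C9 : LE := ⟨[[1, 1, 1, 0, 0, 0, 1, 0, 0], [12, 0, 0, 0, 0, 0, 0, 1, 0], [0, 12, 0, 0, 0, 0, 0, 0, 1], [0, 0, 0, 1, 0, 0, 0, 0, 0], [0, 0, 0, 0, 1, 0, 0, 0, 0], [0, 0, 0, 0, 0, 1, 0, 0, 0], [0, 0, 0, 0, 0, 0, 1, 0, 0], [0, 0, 0, 0, 0, 0, 0, 1, 0], [0, 0, 0, 0, 0, 0, 0, 0, 1]],
  [[0, 12, 0, 0, 0, 0, 0, 1, 0], [0, 0, 12, 0, 0, 0, 0, 0, 1], [1, 1, 1, 0, 0, 0, 12, 12, 12], [0, 0, 0, 1, 0, 0, 0, 0, 0], [0, 0, 0, 0, 1, 0, 0, 0, 0], [0, 0, 0, 0, 0, 1, 0, 0, 0], [0, 0, 0, 0, 0, 0, 1, 0, 0], [0, 0, 0, 0, 0, 0, 0, 1, 0], [0, 0, 0, 0, 0, 0, 0, 0, 1]]⟩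
def T9 : LE := ⟨[[0, 0, 1, 0, 0, 0, 0, 0, 0], [1, 0, 0, 0, 0, 0, 0, 0, 0], [12, 12, 12, 0, 0, 0, 0, 0, 0], [0, 0, 0, 1, 0, 0, 0, 0, 0], [0, 0, 0, 0, 1, 0, 0, 0, 0], [0, 0, 0, 0, 0, 1, 0, 0, 0], [0, 0, 0, 0, 0, 0, 1, 0, 0], [0, 0, 0, 0, 0, 0, 0, 1, 0], [0, 0, 0, 0, 0, 0, 0, 0, 1]],
  [[0, 1, 0, 0, 0, 0, 0, 0, 0], [12, 12, 12, 0, 0, 0, 0, 0, 0], [1, 0, 0, 0, 0, 0, 0, 0, 0], [0, 0, 0, 1, 0, 0, 0, 0, 0], [0, 0, 0, 0, 1, 0, 0, 0, 0], [0, 0, 0, 0, 0, 1, 0, 0, 0], [0, 0, 0, 0, 0, 0, 1, 0, 0], [0, 0, 0, 0, 0, 0, 0, 1, 0], [0, 0, 0, 0, 0, 0, 0, 0, 1]]⟩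
def P1 : LM := [[0, 0, 0, 0, 0, 0, 0, 0, 0], [0, 0, 0, 0, 0, 0, 0, 0, 0], [0, 0, 0, 0, 0, 0, 0, 0, 0], [0, 8, 0, 0, 0, 0, 0, 0, 0], [0, 8, 0, 0, 0, 0, 0, 0, 0], [0, 1, 0, 0, 0, 0, 0, 0, 0], [0, 4, 0, 0, 0, 0, 0, 0, 0], [0, 3, 0, 0, 0, 0, 0, 0, 0], [0, 9, 0, 0, 0, 0, 0, 0, 0]]
def P2 : LM := [[0, 0, 0, 0, 0, 0, 0, 0, 0], [0, 0, 0, 0, 0, 0, 0, 0, 0], [0, 0, 0, 0, 0, 0, 0, 0, 0], [7, 0, 0, 0, 0, 0, 0, 0, 0], [12, 0, 0, 0, 0, 0, 0, 0, 0], [6, 0, 0, 0, 0, 0, 0, 0, 0], [0, 0, 0, 0, 0, 0, 0, 0, 0], [12, 0, 0, 0, 0, 0, 0, 0, 0], [7, 0, 0, 0, 0, 0, 0, 0, 0]]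
def P3 : LM := [[0, 0, 0, 0, 0, 0, 0, 0, 0], [0, 0, 0, 0, 0, 0, 0, 0, 0], [0, 0, 0, 0, 0, 0, 0, 0, 0], [10, 12, 0, 0, 0, 0, 0, 0, 0], [10, 2, 0, 0, 0, 0, 0, 0, 0], [2, 1, 0, 0, 0, 0, 0, 0, 0], [9, 3, 0, 0, 0, 0, 0, 0, 0], [12, 1, 0, 0, 0, 0, 0, 0, 0], [4, 10, 0, 0, 0, 0, 0, 0, 0]]
def P4 : LM := [[0, 0, 0, 0, 0, 0, 0, 0, 0], [0, 0, 0, 0, 0, 0, 0, 0, 0], [0, 0, 0, 0, 0, 0, 0, 0, 0], [2, 6, 0, 0, 0, 0, 0, 0, 0], [4, 4, 0, 0, 0, 0, 0, 0, 0], [9, 3, 0, 0, 0, 0, 0, 0, 0], [11, 1, 0, 0, 0, 0, 0, 0, 0], [5, 4, 0, 0, 0, 0, 0, 0, 0], [2, 12, 0, 0, 0, 0, 0, 0, 0]]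

theorem fin : FinCert 2 :=
  ⟨B9, C9, T9, [P1, P2, P3, P4], by decide +kernel, by decide +kernel, by decide +kernel,
    by decide +kernel, by decide +kernel, by decide +kernel, by decide +kernel⟩

end Pool.Agent.Helper95.DFJ.F13.D2
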