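import Mathlib

/-!
# DFJ: matrices over `ZMod 13` as lists of lists of natural numbers; the certificates
-/

namespace Pool.Agent.Helper95.DFJ.F13

open Matrix

abbrev LM := List (List ℕ)

def dot : List ℕ → List ℕ → ℕ
  | a :: as, b :: bs => a * b + dot as bs
  | _, _ => 0

/-- column `j` -/
def colM (A : LM) (j : ℕ) : List ℕ := A.map fun r => r.getD j 0

def trM (n : ℕ) (A : LM) : LM := (List.range n).map fun j => colM A j

def mulT (A BT : LM) : LM := A.map fun r => BT.map fun c => dot r c % 13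

def mulM (n : ℕ) (A B : LM) : LM := mulT A (trM n B)

def idM (n : ℕ) : LM := (List.range n).map fun i => (List.range n).map fun j => if i = j then 1 else 0

def shp (n : ℕ) (A : LM) : Bool := A.length == n && A.all fun r => r.length == n

/-- an invertible matrix together with its inverse -/
structure LE where
  m : LM
  i : LM
deriving DecidableEq

def LE.mul (n : ℕ) (x y : LE) : LE := ⟨mulM n x.m y.m, mulM n y.i x.i⟩
def LE.inv (x : LE) : LE := ⟨x.i, x.m⟩

def dL (n : ℕ) (b c t : LE) : LE :=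
  LE.mul n (LE.mul n (LE.mul n (LE.mul n t b) c) b.inv) t.inv
def aL (n : ℕ) (b d t : LE) : LE :=
  LE.mul n (LE.mul n t.inv (LE.mul n (LE.mul n d.inv b) d)) t
/-- `c⁻¹ d⁻¹ c b⁻¹` -/
def pL (n : ℕ) (b c d : LE) : LE := LE.mul n (LE.mul n (LE.mul n c.inv d.inv) c) b.inv
/-- `b c⁻¹ d c` -/
def qL (n : ℕ) (b c d : LE) : LE := LE.mul n (LE.mul n (LE.mul n b c.inv) d) c

def relChk (n : ℕ) (b c t : LE) : Bool :=
  let d := dL n b c t
  let a := aL n b d t
  let p := pL n b c d
  let q := qL n b c d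
  let x4 := LE.mul n (LE.mul n p a.inv) q
  let x5 := LE.mul n (LE.mul n (LE.mul n (LE.mul n p a) q) (LE.mul n b.inv a.inv)) q
  let s := LE.mul n (LE.mul n t b) t.inv
  (mulM n (mulM n b.m b.m) b.m == idM n) &&
  (mulM n (mulM n (mulM n c.m c.m) c.m) c.m == idM n) &&
  ((LE.mul n (LE.mul n c.inv s.inv) c).m == (LE.mul n (LE.mul n t x4) t.inv).m) &&
  ((LE.mul n (LE.mul n (LE.mul n (LE.mul n c.inv s) c) s.inv) c).m == x5.m)

abbrev K := ZMod 13
abbrev MT (n : ℕ) := Matrix (Fin n) (Fin n) K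

def toM (n : ℕ) (A : LM) : MT n := fun i j => (((A.getD i []).getD j 0 : ℕ) : K)

/-- validity of the data -/
def valid (n : ℕ) (x : LE) : Bool :=
  shp n x.m && shp n x.i && (mulM n x.m x.i == idM n) && (mulM n x.i x.m == idM n)

/-- block form -/
def bk {d : ℕ} (M : MT (3 + d)) : Matrix (Fin 3 ⊕ Fin d) (Fin 3 ⊕ Fin d) K :=
  M.submatrix finSumFinEquiv finSumFinEquiv

def addR : List ℕ → List ℕ → List ℕ
  | a :: as, b :: bs => ((a + b) % 13) :: addR as bs
  | _, _ => []

def addM : LM → LM → LM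
  | a :: as, b :: bs => addR a b :: addM as bs
  | _, _ => []

/-- the four relators evaluated on data: left sides and right sides -/
def lhsL (n : ℕ) (b c t : LE) : List LM :=
  let s := LE.mul n (LE.mul n t b) t.inv
  [mulM n (mulM n b.m b.m) b.m, mulM n (mulM n (mulM n c.m c.m) c.m) c.m,
    (LE.mul n (LE.mul n c.inv s.inv) c).m,
    (LE.mul n (LE.mul n (LE.mul n (LE.mul n c.inv s) c) s.inv) c).m]

def rhsL (n : ℕ) (b c t : LE) : List LM :=
  let d := dL n b c t
  let a := aL n b d t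
  let p := pL n b c d
  let q := qL n b c d
  let x4 := LE.mul n (LE.mul n p a.inv) q
  let x5 := LE.mul n (LE.mul n (LE.mul n (LE.mul n p a) q) (LE.mul n b.inv a.inv)) q
  [idM n, idM n, (LE.mul n (LE.mul n t x4) t.inv).m, x5.m]

/-- sum of products -/
def lin (n : ℕ) : List LM → List LM → LM → LM
  | P :: Ps, A :: As, Z => addM (mulM n P A) (lin n Ps As Z)
  | _, _, Z => Z

def chkFin (n : ℕ) (b c t : LE) (P : List LM) (Z J : LM) : Bool :=
  shp n Z && shp n J && P.all (fun A => shp n A) &&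
  (lin n P (lhsL n b c t) Z == lin n P (rhsL n b c t) J)

/-- the two embeddings of `Fin 3` columns -/
def E1 : Matrix (Fin 3) (Fin 6) K := Matrix.of ![![1,0,0,0,0,0], ![0,1,0,0,0,0], ![0,0,1,0,0,0]]
def E2 : Matrix (Fin 3) (Fin 6) K := Matrix.of ![![0,0,0,1,0,0], ![0,0,0,0,1,0], ![0,0,0,0,0,1]]

def Z9 : LM := List.replicate 9 (List.replicate 9 0)
def J9 : LM := List.replicate 3 (List.replicate 9 0) ++
  (List.range 6).map fun i => (List.range 9).map fun j => if j = i + 3 then 1 else 0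

/-- rectangular matrices from lists -/
def toR (m n : ℕ) (A : LM) : Matrix (Fin m) (Fin n) K := fun i j => (((A.getD i []).getD j 0 : ℕ) : K)

def sclR (k : ℕ) (r : List ℕ) : List ℕ := r.map fun x => k * x % 13
def sclM (k : ℕ) (A : LM) : LM := A.map (sclR k)

/-- the matrices of the three generators -/
def wb : LM := [[1, 0, 0], [12, 12, 12], [0, 1, 0]]
def wc : LM := [[12, 12, 12], [1, 0, 0], [0, 1, 0]]
def wt : LM := [[0, 0, 1], [1, 0, 0], [12, 12, 12]]

/-! ### the same computations written with recursors: fast in the kernel -/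

def mapF {α β : Type} (f : α → β) (l : List α) : List β :=
  List.rec (motive := fun _ => List β) [] (fun x _ ih => f x :: ih) l

def dotF (a : List ℕ) : List ℕ → ℕ :=
  List.rec (motive := fun _ => List ℕ → ℕ) (fun _ => 0)
    (fun x _ ih b => List.rec (motive := fun _ => ℕ) 0 (fun y bs _ => x * y + ih bs) b) a

def getF {α : Type} (z : α) (l : List α) : ℕ → α :=
  List.rec (motive := fun _ => ℕ → α) (fun _ => z)
    (fun x _ ih n => Nat.rec (motive := fun _ => α) x (fun m _ => ih m) n) l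

def rangeF (n : ℕ) : List ℕ :=
  Nat.rec (motive := fun _ => List ℕ → List ℕ) (fun l => l) (fun m ih l => ih (m :: l)) n []

def trF (n : ℕ) (A : LM) : LM := mapF (fun j => mapF (fun r => getF 0 r j) A) (rangeF n)

def mulF (n : ℕ) (A B : LM) : LM := (fun T => mapF (fun r => mapF (fun c => dotF r c % 13) T) A) (trF n B)

def eqR (a : List ℕ) : List ℕ → Bool :=
  List.rec (motive := fun _ => List ℕ → Bool)
    (fun b => List.rec (motive := fun _ => Bool) true (fun _ _ _ => false) b)
    (fun x _ ih b => List.rec (motive := fun _ => Bool) false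
      (fun y bs _ => Bool.rec (motive := fun _ => Bool) false (ih bs) (Nat.beq x y)) b) a

def eqF (a : LM) : LM → Bool :=
  List.rec (motive := fun _ => LM → Bool)
    (fun b => List.rec (motive := fun _ => Bool) true (fun _ _ _ => false) b)
    (fun x _ ih b => List.rec (motive := fun _ => Bool) false
      (fun y bs _ => Bool.rec (motive := fun _ => Bool) false (ih bs) (eqR x y)) b) a

section gen

variable (mul : LM → LM → LM) (eq : LM → LM → Bool)

def mulG (x y : LE) : LE := ⟨mul x.m y.m, mul y.i x.i⟩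
def dG (b c t : LE) : LE := mulG mul (mulG mul (mulG mul (mulG mul t b) c) b.inv) t.inv
def aG (b d t : LE) : LE := mulG mul (mulG mul t.inv (mulG mul (mulG mul d.inv b) d)) t
def pG (b c d : LE) : LE := mulG mul (mulG mul (mulG mul c.inv d.inv) c) b.inv
def qG (b c d : LE) : LE := mulG mul (mulG mul (mulG mul b c.inv) d) c

def relG (n : ℕ) (b c t : LE) : Bool :=
  let d := dG mul b c t
  let a := aG mul b d t
  let p := pG mul b c d
  let q := qG mul b c d
  let x4 := mulG mul (mulG mul p a.inv) q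
  let x5 := mulG mul (mulG mul (mulG mul (mulG mul p a) q) (mulG mul b.inv a.inv)) q
  let s := mulG mul (mulG mul t b) t.inv
  (eq (mul (mul b.m b.m) b.m) (idM n)) &&
  (eq (mul (mul (mul c.m c.m) c.m) c.m) (idM n)) &&
  (eq ((mulG mul (mulG mul c.inv s.inv) c).m) ((mulG mul (mulG mul t x4) t.inv).m)) &&
  (eq ((mulG mul (mulG mul (mulG mul (mulG mul c.inv s) c) s.inv) c).m) x5.m)

def lhsG (b c t : LE) : List LM :=
  let s := mulG mul (mulG mul t b) t.inv
  [mul (mul b.m b.m) b.m, mul (mul (mul c.m c.m) c.m) c.m,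
    (mulG mul (mulG mul c.inv s.inv) c).m,
    (mulG mul (mulG mul (mulG mul (mulG mul c.inv s) c) s.inv) c).m]

def rhsG (n : ℕ) (b c t : LE) : List LM :=
  let d := dG mul b c t
  let a := aG mul b d t
  let p := pG mul b c d
  let q := qG mul b c d
  let x4 := mulG mul (mulG mul p a.inv) q
  let x5 := mulG mul (mulG mul (mulG mul (mulG mul p a) q) (mulG mul b.inv a.inv)) q
  [idM n, idM n, (mulG mul (mulG mul t x4) t.inv).m, x5.m]

def linG : List LM → List LM → LM → LM
  | P :: Ps, A :: As, Z => addM (mul P A) (linG Ps As Z)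
  | _, _, Z => Z

def chkG (n : ℕ) (b c t : LE) (P : List LM) (Z J : LM) : Bool :=
  shp n Z && shp n J && P.all (fun A => shp n A) &&
  (eq (linG mul P (lhsG mul b c t) Z) (linG mul P (rhsG mul n b c t) J))

def valG (n : ℕ) (x : LE) : Bool :=
  shp n x.m && shp n x.i && (eq (mul x.m x.i) (idM n)) && (eq (mul x.i x.m) (idM n))

end gen

def relF (n : ℕ) (b c t : LE) : Bool := relG (mulF n) eqF n b c t
def chkF (n : ℕ) (b c t : LE) (P : List LM) (Z J : LM) : Bool := chkG (mulF n) eqF n b c t P Z J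
def valF (n : ℕ) (x : LE) : Bool := valG (mulF n) eqF n x

def FamCert (j d : ℕ) : Prop :=
  ∃ (B C T Q : LE) (Ub Uc S1 S2 S3 S4 : LM), valF (3 + d) B = true ∧ valF (3 + d) C = true ∧
    valF (3 + d) T = true ∧ valF d Q = true ∧ relF (3 + d) B C T = true ∧
    bk (toM (3 + d) B.m) = fromBlocks (toM 3 (sclM (16 ^ j) wb)) (toR 3 d Ub) 0 1 ∧
    bk (toM (3 + d) C.m) = fromBlocks (toM 3 (sclM (8 ^ j) wc)) (toR 3 d Uc) 0 1 ∧
    bk (toM (3 + d) T.m) = fromBlocks (toM 3 wt) 0 0 (toM d Q.m) ∧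
    toR d 3 S1 * toR 3 d Ub + toR d 3 S2 * toR 3 d Uc + toR d 3 S3 * (toR 3 d Ub * toM d Q.m) +
      toR d 3 S4 * (toR 3 d Uc * toM d Q.m) = 1

def FinCert (j : ℕ) : Prop :=
  ∃ (B C T : LE) (P : List LM), valF 9 B = true ∧ valF 9 C = true ∧ valF 9 T = true ∧
    bk (d := 6) (toM 9 B.m) = fromBlocks (toM 3 (sclM (16 ^ j) wb)) E1 0 1 ∧
    bk (d := 6) (toM 9 C.m) = fromBlocks (toM 3 (sclM (8 ^ j) wc)) E2 0 1 ∧
    bk (d := 6) (toM 9 T.m) = fromBlocks (toM 3 wt) 0 0 1 ∧ chkF 9 B C T P Z9 J9 = true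

end Pool.Agent.Helper95.DFJ.F13
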