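import Pool.Agent.Helper95.DFJ.F13.DC
import Pool.Agent.Helper95.DFJ.F13.Lib

/-!
# DFJ: data of the certificates for the twists 9, 10, 11
-/

namespace Pool.Agent.Helper95.DFJ.F13.D9

open Matrix

def B : LE := ⟨[[1, 0, 0, 0, 0, 0, 0, 0, 0, 0, 0], [12, 12, 12, 1, 0, 0, 0, 0, 0, 0, 0], [0, 1, 0, 0, 1, 0, 0, 0, 0, 0, 0], [0, 0, 0, 1, 0, 0, 0, 0, 0, 0, 0], [0, 0, 0, 0, 1, 0, 0, 0, 0, 0, 0], [0, 0, 0, 0, 0, 1, 0, 0, 0, 0, 0], [0, 0, 0, 0, 0, 0, 1, 0, 0, 0, 0], [0, 0, 0, 0, 0, 0, 0, 1, 0, 0, 0], [0, 0, 0, 0, 0, 0, 0, 0, 1, 0, 0], [0, 0, 0, 0, 0, 0, 0, 0, 0, 1, 0], [0, 0, 0, 0, 0, 0, 0, 0, 0, 0, 1]],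
  [[1, 0, 0, 0, 0, 0, 0, 0, 0, 0, 0], [0, 0, 1, 0, 12, 0, 0, 0, 0, 0, 0], [12, 12, 12, 1, 1, 0, 0, 0, 0, 0, 0], [0, 0, 0, 1, 0, 0, 0, 0, 0, 0, 0], [0, 0, 0, 0, 1, 0, 0, 0, 0, 0, 0], [0, 0, 0, 0, 0, 1, 0, 0, 0, 0, 0], [0, 0, 0, 0, 0, 0, 1, 0, 0, 0, 0], [0, 0, 0, 0, 0, 0, 0, 1, 0, 0, 0], [0, 0, 0, 0, 0, 0, 0, 0, 1, 0, 0], [0, 0, 0, 0, 0, 0, 0, 0, 0, 1, 0], [0, 0, 0, 0, 0, 0, 0, 0, 0, 0, 1]]⟩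
def C : LE := ⟨[[5, 5, 5, 0, 0, 1, 0, 0, 0, 0, 0], [8, 0, 0, 0, 0, 0, 1, 0, 0, 0, 0], [0, 8, 0, 0, 0, 5, 4, 0, 0, 0, 0], [0, 0, 0, 1, 0, 0, 0, 0, 0, 0, 0], [0, 0, 0, 0, 1, 0, 0, 0, 0, 0, 0], [0, 0, 0, 0, 0, 1, 0, 0, 0, 0, 0], [0, 0, 0, 0, 0, 0, 1, 0, 0, 0, 0], [0, 0, 0, 0, 0, 0, 0, 1, 0, 0, 0], [0, 0, 0, 0, 0, 0, 0, 0, 1, 0, 0], [0, 0, 0, 0, 0, 0, 0, 0, 0, 1, 0], [0, 0, 0, 0, 0, 0, 0, 0, 0, 0, 1]],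
  [[0, 5, 0, 0, 0, 0, 8, 0, 0, 0, 0], [0, 0, 5, 0, 0, 1, 6, 0, 0, 0, 0], [8, 8, 8, 0, 0, 4, 12, 0, 0, 0, 0], [0, 0, 0, 1, 0, 0, 0, 0, 0, 0, 0], [0, 0, 0, 0, 1, 0, 0, 0, 0, 0, 0], [0, 0, 0, 0, 0, 1, 0, 0, 0, 0, 0], [0, 0, 0, 0, 0, 0, 1, 0, 0, 0, 0], [0, 0, 0, 0, 0, 0, 0, 1, 0, 0, 0], [0, 0, 0, 0, 0, 0, 0, 0, 1, 0, 0], [0, 0, 0, 0, 0, 0, 0, 0, 0, 1, 0], [0, 0, 0, 0, 0, 0, 0, 0, 0, 0, 1]]⟩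
def T : LE := ⟨[[0, 0, 1, 0, 0, 0, 0, 0, 0, 0, 0], [1, 0, 0, 0, 0, 0, 0, 0, 0, 0, 0], [12, 12, 12, 0, 0, 0, 0, 0, 0, 0, 0], [0, 0, 0, 0, 0, 0, 0, 1, 0, 0, 0], [0, 0, 0, 0, 0, 0, 0, 0, 1, 0, 0], [0, 0, 0, 0, 0, 0, 0, 0, 0, 1, 0], [0, 0, 0, 0, 0, 0, 0, 0, 0, 0, 1], [0, 0, 0, 12, 1, 0, 1, 12, 0, 8, 9], [0, 0, 0, 12, 11, 10, 3, 12, 12, 4, 12], [0, 0, 0, 6, 0, 8, 6, 12, 6, 0, 0], [0, 0, 0, 10, 3, 6, 10, 4, 10, 5, 1]],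
  [[0, 1, 0, 0, 0, 0, 0, 0, 0, 0, 0], [12, 12, 12, 0, 0, 0, 0, 0, 0, 0, 0], [1, 0, 0, 0, 0, 0, 0, 0, 0, 0, 0], [0, 0, 0, 3, 5, 7, 2, 7, 6, 1, 6], [0, 0, 0, 3, 6, 10, 5, 7, 3, 6, 0], [0, 0, 0, 2, 6, 3, 1, 7, 3, 8, 4], [0, 0, 0, 1, 12, 2, 1, 1, 3, 8, 6], [0, 0, 0, 1, 0, 0, 0, 0, 0, 0, 0], [0, 0, 0, 0, 1, 0, 0, 0, 0, 0, 0], [0, 0, 0, 0, 0, 1, 0, 0, 0, 0, 0], [0, 0, 0, 0, 0, 0, 1, 0, 0, 0, 0]]⟩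
def Q : LE := ⟨[[0, 0, 0, 0, 1, 0, 0, 0], [0, 0, 0, 0, 0, 1, 0, 0], [0, 0, 0, 0, 0, 0, 1, 0], [0, 0, 0, 0, 0, 0, 0, 1], [12, 1, 0, 1, 12, 0, 8, 9], [12, 11, 10, 3, 12, 12, 4, 12], [6, 0, 8, 6, 12, 6, 0, 0], [10, 3, 6, 10, 4, 10, 5, 1]],
  [[3, 5, 7, 2, 7, 6, 1, 6], [3, 6, 10, 5, 7, 3, 6, 0], [2, 6, 3, 1, 7, 3, 8, 4], [1, 12, 2, 1, 1, 3, 8, 6], [1, 0, 0, 0, 0, 0, 0, 0], [0, 1, 0, 0, 0, 0, 0, 0], [0, 0, 1, 0, 0, 0, 0, 0], [0, 0, 0, 1, 0, 0, 0, 0]]⟩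
def Ub : LM := [[0, 0, 0, 0, 0, 0, 0, 0], [1, 0, 0, 0, 0, 0, 0, 0], [0, 1, 0, 0, 0, 0, 0, 0]]
def Uc : LM := [[0, 0, 1, 0, 0, 0, 0, 0], [0, 0, 0, 1, 0, 0, 0, 0], [0, 0, 5, 4, 0, 0, 0, 0]]
def S1 : LM := [[0, 1, 0], [0, 0, 1], [0, 0, 0], [0, 0, 0], [0, 0, 0], [0, 0, 0], [0, 0, 0], [0, 0, 0]]
def S2 : LM := [[0, 0, 0], [0, 0, 0], [1, 0, 0], [0, 1, 0], [0, 0, 0], [0, 0, 0], [0, 0, 0], [0, 0, 0]]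
def S3 : LM := [[0, 0, 0], [0, 0, 0], [0, 0, 0], [0, 0, 0], [0, 1, 0], [0, 0, 1], [0, 0, 0], [0, 0, 0]]
def S4 : LM := [[0, 0, 0], [0, 0, 0], [0, 0, 0], [0, 0, 0], [0, 0, 0], [0, 0, 0], [1, 0, 0], [0, 1, 0]]

theorem fam : FamCert 9 8 :=
  ⟨B, C, T, Q, Ub, Uc, S1, S2, S3, S4, by decide +kernel, by decide +kernel, by decide +kernel,
    by decide +kernel, by decide +kernel, by decide +kernel, by decide +kernel, by decide +kernel,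
    by decide +kernel⟩

def B9 : LE := ⟨[[1, 0, 0, 1, 0, 0, 0, 0, 0], [12, 12, 12, 0, 1, 0, 0, 0, 0], [0, 1, 0, 0, 0, 1, 0, 0, 0], [0, 0, 0, 1, 0, 0, 0, 0, 0], [0, 0, 0, 0, 1, 0, 0, 0, 0], [0, 0, 0, 0, 0, 1, 0, 0, 0], [0, 0, 0, 0, 0, 0, 1, 0, 0], [0, 0, 0, 0, 0, 0, 0, 1, 0], [0, 0, 0, 0, 0, 0, 0, 0, 1]],
  [[1, 0, 0, 12, 0, 0, 0, 0, 0], [0, 0, 1, 0, 0, 12, 0, 0, 0], [12, 12, 12, 1, 1, 1, 0, 0, 0], [0, 0, 0, 1, 0, 0, 0, 0, 0], [0, 0, 0, 0, 1, 0, 0, 0, 0], [0, 0, 0, 0, 0, 1, 0, 0, 0], [0, 0, 0, 0, 0, 0, 1, 0, 0], [0, 0, 0, 0, 0, 0, 0, 1, 0], [0, 0, 0, 0, 0, 0, 0, 0, 1]]⟩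
def C9 : LE := ⟨[[5, 5, 5, 0, 0, 0, 1, 0, 0], [8, 0, 0, 0, 0, 0, 0, 1, 0], [0, 8, 0, 0, 0, 0, 0, 0, 1], [0, 0, 0, 1, 0, 0, 0, 0, 0], [0, 0, 0, 0, 1, 0, 0, 0, 0], [0, 0, 0, 0, 0, 1, 0, 0, 0], [0, 0, 0, 0, 0, 0, 1, 0, 0], [0, 0, 0, 0, 0, 0, 0, 1, 0], [0, 0, 0, 0, 0, 0, 0, 0, 1]],
  [[0, 5, 0, 0, 0, 0, 0, 8, 0], [0, 0, 5, 0, 0, 0, 0, 0, 8], [8, 8, 8, 0, 0, 0, 5, 5, 5], [0, 0, 0, 1, 0, 0, 0, 0, 0], [0, 0, 0, 0, 1, 0, 0, 0, 0], [0, 0, 0, 0, 0, 1, 0, 0, 0], [0, 0, 0, 0, 0, 0, 1, 0, 0], [0, 0, 0, 0, 0, 0, 0, 1, 0], [0, 0, 0, 0, 0, 0, 0, 0, 1]]⟩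
def T9 : LE := ⟨[[0, 0, 1, 0, 0, 0, 0, 0, 0], [1, 0, 0, 0, 0, 0, 0, 0, 0], [12, 12, 12, 0, 0, 0, 0, 0, 0], [0, 0, 0, 1, 0, 0, 0, 0, 0], [0, 0, 0, 0, 1, 0, 0, 0, 0], [0, 0, 0, 0, 0, 1, 0, 0, 0], [0, 0, 0, 0, 0, 0, 1, 0, 0], [0, 0, 0, 0, 0, 0, 0, 1, 0], [0, 0, 0, 0, 0, 0, 0, 0, 1]],
  [[0, 1, 0, 0, 0, 0, 0, 0, 0], [12, 12, 12, 0, 0, 0, 0, 0, 0], [1, 0, 0, 0, 0, 0, 0, 0, 0], [0, 0, 0, 1, 0, 0, 0, 0, 0], [0, 0, 0, 0, 1, 0, 0, 0, 0], [0, 0, 0, 0, 0, 1, 0, 0, 0], [0, 0, 0, 0, 0, 0, 1, 0, 0], [0, 0, 0, 0, 0, 0, 0, 1, 0], [0, 0, 0, 0, 0, 0, 0, 0, 1]]⟩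
def P1 : LM := [[0, 0, 0, 0, 0, 0, 0, 0, 0], [0, 0, 0, 0, 0, 0, 0, 0, 0], [0, 0, 0, 0, 0, 0, 0, 0, 0], [9, 0, 0, 0, 0, 0, 0, 0, 0], [8, 0, 0, 0, 0, 0, 0, 0, 0], [1, 0, 0, 0, 0, 0, 0, 0, 0], [1, 0, 0, 0, 0, 0, 0, 0, 0], [0, 0, 0, 0, 0, 0, 0, 0, 0], [5, 0, 0, 0, 0, 0, 0, 0, 0]]
def P2 : LM := [[0, 0, 0, 0, 0, 0, 0, 0, 0], [0, 0, 0, 0, 0, 0, 0, 0, 0], [0, 0, 0, 0, 0, 0, 0, 0, 0], [0, 0, 0, 0, 0, 0, 0, 0, 0], [2, 0, 0, 0, 0, 0, 0, 0, 0], [11, 0, 0, 0, 0, 0, 0, 0, 0], [0, 0, 0, 0, 0, 0, 0, 0, 0], [1, 0, 0, 0, 0, 0, 0, 0, 0], [1, 0, 0, 0, 0, 0, 0, 0, 0]]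
def P3 : LM := [[0, 0, 0, 0, 0, 0, 0, 0, 0], [0, 0, 0, 0, 0, 0, 0, 0, 0], [0, 0, 0, 0, 0, 0, 0, 0, 0], [0, 0, 0, 0, 0, 0, 0, 0, 0], [0, 9, 5, 0, 0, 0, 0, 0, 0], [0, 2, 0, 0, 0, 0, 0, 0, 0], [0, 4, 10, 0, 0, 0, 0, 0, 0], [0, 11, 0, 0, 0, 0, 0, 0, 0], [0, 12, 11, 0, 0, 0, 0, 0, 0]]
def P4 : LM := [[0, 0, 0, 0, 0, 0, 0, 0, 0], [0, 0, 0, 0, 0, 0, 0, 0, 0], [0, 0, 0, 0, 0, 0, 0, 0, 0], [0, 0, 0, 0, 0, 0, 0, 0, 0], [8, 9, 0, 0, 0, 0, 0, 0, 0], [7, 5, 0, 0, 0, 0, 0, 0, 0], [0, 3, 0, 0, 0, 0, 0, 0, 0], [5, 1, 0, 0, 0, 0, 0, 0, 0], [7, 6, 0, 0, 0, 0, 0, 0, 0]]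

theorem fin : FinCert 9 :=
  ⟨B9, C9, T9, [P1, P2, P3, P4], by decide +kernel, by decide +kernel, by decide +kernel,
    by decide +kernel, by decide +kernel, by decide +kernel, by decide +kernel⟩

end Pool.Agent.Helper95.DFJ.F13.D9

namespace Pool.Agent.Helper95.DFJ.F13.D10

open Matrix

def B : LE := ⟨[[3, 0, 0, 1, 0, 0, 0, 0, 0, 0, 0], [10, 10, 10, 0, 1, 0, 0, 0, 0, 0, 0], [0, 3, 0, 7, 9, 0, 0, 0, 0, 0, 0], [0, 0, 0, 1, 0, 0, 0, 0, 0, 0, 0], [0, 0, 0, 0, 1, 0, 0, 0, 0, 0, 0], [0, 0, 0, 0, 0, 1, 0, 0, 0, 0, 0], [0, 0, 0, 0, 0, 0, 1, 0, 0, 0, 0], [0, 0, 0, 0, 0, 0, 0, 1, 0, 0, 0], [0, 0, 0, 0, 0, 0, 0, 0, 1, 0, 0], [0, 0, 0, 0, 0, 0, 0, 0, 0, 1, 0], [0, 0, 0, 0, 0, 0, 0,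 0, 0, 0, 1]],
  [[9, 0, 0, 4, 0, 0, 0, 0, 0, 0, 0], [0, 0, 9, 2, 10, 0, 0, 0, 0, 0, 0], [4, 4, 4, 7, 12, 0, 0, 0, 0, 0, 0], [0, 0, 0, 1, 0, 0, 0, 0, 0, 0, 0], [0, 0, 0, 0, 1, 0, 0, 0, 0, 0, 0], [0, 0, 0, 0, 0, 1, 0, 0, 0, 0, 0], [0, 0, 0, 0, 0, 0, 1, 0, 0, 0, 0], [0, 0, 0, 0, 0, 0, 0, 1, 0, 0, 0], [0, 0, 0, 0, 0, 0, 0, 0, 1, 0, 0], [0, 0, 0, 0, 0, 0, 0, 0, 0, 1, 0], [0, 0, 0, 0, 0, 0, 0, 0, 0, 0, 1]]⟩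
def C : LE := ⟨[[1, 1, 1, 0, 0, 1, 0, 0, 0, 0, 0], [12, 0, 0, 0, 0, 0, 1, 0, 0, 0, 0], [0, 12, 0, 0, 0, 12, 0, 0, 0, 0, 0], [0, 0, 0, 1, 0, 0, 0, 0, 0, 0, 0], [0, 0, 0, 0, 1, 0, 0, 0, 0, 0, 0], [0, 0, 0, 0, 0, 1, 0, 0, 0, 0, 0], [0, 0, 0, 0, 0, 0, 1, 0, 0, 0, 0], [0, 0, 0, 0, 0, 0, 0, 1, 0, 0, 0], [0, 0, 0, 0, 0, 0, 0, 0, 1, 0, 0], [0, 0, 0, 0, 0, 0, 0, 0, 0, 1, 0], [0, 0, 0, 0, 0, 0, 0, 0, 0, 0, 1]],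
  [[0, 12, 0, 0, 0, 0, 1, 0, 0, 0, 0], [0, 0, 12, 0, 0, 12, 0, 0, 0, 0, 0], [1, 1, 1, 0, 0, 0, 12, 0, 0, 0, 0], [0, 0, 0, 1, 0, 0, 0, 0, 0, 0, 0], [0, 0, 0, 0, 1, 0, 0, 0, 0, 0, 0], [0, 0, 0, 0, 0, 1, 0, 0, 0, 0, 0], [0, 0, 0, 0, 0, 0, 1, 0, 0, 0, 0], [0, 0, 0, 0, 0, 0, 0, 1, 0, 0, 0], [0, 0, 0, 0, 0, 0, 0, 0, 1, 0, 0], [0, 0, 0, 0, 0, 0, 0, 0, 0, 1, 0], [0, 0, 0, 0, 0, 0, 0, 0, 0, 0, 1]]⟩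
def T : LE := ⟨[[0, 0, 1, 0, 0, 0, 0, 0, 0, 0, 0], [1, 0, 0, 0, 0, 0, 0, 0, 0, 0, 0], [12, 12, 12, 0, 0, 0, 0, 0, 0, 0, 0], [0, 0, 0, 0, 0, 0, 0, 1, 0, 0, 0], [0, 0, 0, 0, 0, 0, 0, 0, 1, 0, 0], [0, 0, 0, 0, 0, 0, 0, 0, 0, 1, 0], [0, 0, 0, 0, 0, 0, 0, 0, 0, 0, 1], [0, 0, 0, 7, 0, 7, 4, 12, 8, 3, 4], [0, 0, 0, 8, 5, 1, 5, 1, 10, 6, 9], [0, 0, 0, 3, 1, 1, 8, 2, 9, 2, 12], [0, 0, 0, 0, 12, 11, 8, 6, 0, 6, 7]],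
  [[0, 1, 0, 0, 0, 0, 0, 0, 0, 0, 0], [12, 12, 12, 0, 0, 0, 0, 0, 0, 0, 0], [1, 0, 0, 0, 0, 0, 0, 0, 0, 0, 0], [0, 0, 0, 0, 7, 10, 10, 11, 10, 0, 11], [0, 0, 0, 9, 6, 10, 2, 2, 6, 1, 4], [0, 0, 0, 4, 12, 2, 0, 5, 12, 4, 12], [0, 0, 0, 3, 7, 1, 1, 8, 7, 6, 2], [0, 0, 0, 1, 0, 0, 0, 0, 0, 0, 0], [0, 0, 0, 0, 1, 0, 0, 0, 0, 0, 0], [0, 0, 0, 0, 0, 1, 0, 0, 0, 0, 0], [0, 0, 0, 0, 0, 0, 1, 0, 0, 0, 0]]⟩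
def Q : LE := ⟨[[0, 0, 0, 0, 1, 0, 0, 0], [0, 0, 0, 0, 0, 1, 0, 0], [0, 0, 0, 0, 0, 0, 1, 0], [0, 0, 0, 0, 0, 0, 0, 1], [7, 0, 7, 4, 12, 8, 3, 4], [8, 5, 1, 5, 1, 10, 6, 9], [3, 1, 1, 8, 2, 9, 2, 12], [0, 12, 11, 8, 6, 0, 6, 7]],
  [[0, 7, 10, 10, 11, 10, 0, 11], [9, 6, 10, 2, 2, 6, 1, 4], [4, 12, 2, 0, 5, 12, 4, 12], [3, 7, 1, 1, 8, 7, 6, 2], [1, 0, 0, 0, 0, 0, 0, 0], [0, 1, 0, 0, 0, 0, 0, 0], [0, 0, 1, 0, 0, 0, 0, 0], [0, 0, 0, 1, 0, 0, 0, 0]]⟩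
def Ub : LM := [[1, 0, 0, 0, 0, 0, 0, 0], [0, 1, 0, 0, 0, 0, 0, 0], [7, 9, 0, 0, 0, 0, 0, 0]]
def Uc : LM := [[0, 0, 1, 0, 0, 0, 0, 0], [0, 0, 0, 1, 0, 0, 0, 0], [0, 0, 12, 0, 0, 0, 0, 0]]
def S1 : LM := [[1, 0, 0], [0, 1, 0], [0, 0, 0], [0, 0, 0], [0, 0, 0], [0, 0, 0], [0, 0, 0], [0, 0, 0]]
def S2 : LM := [[0, 0, 0], [0, 0, 0], [1, 0, 0], [0, 1, 0], [0, 0, 0], [0, 0, 0], [0, 0, 0], [0, 0, 0]]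
def S3 : LM := [[0, 0, 0], [0, 0, 0], [0, 0, 0], [0, 0, 0], [1, 0, 0], [0, 1, 0], [0, 0, 0], [0, 0, 0]]
def S4 : LM := [[0, 0, 0], [0, 0, 0], [0, 0, 0], [0, 0, 0], [0, 0, 0], [0, 0, 0], [1, 0, 0], [0, 1, 0]]

theorem fam : FamCert 10 8 :=
  ⟨B, C, T, Q, Ub, Uc, S1, S2, S3, S4, by decide +kernel, by decide +kernel, by decide +kernel,
    by decide +kernel, by decide +kernel, by decide +kernel, by decide +kernel, by decide +kernel,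
    by decide +kernel⟩

def B9 : LE := ⟨[[3, 0, 0, 1, 0, 0, 0, 0, 0], [10, 10, 10, 0, 1, 0, 0, 0, 0], [0, 3, 0, 0, 0, 1, 0, 0, 0], [0, 0, 0, 1, 0, 0, 0, 0, 0], [0, 0, 0, 0, 1, 0, 0, 0, 0], [0, 0, 0, 0, 0, 1, 0, 0, 0], [0, 0, 0, 0, 0, 0, 1, 0, 0], [0, 0, 0, 0, 0, 0, 0, 1, 0], [0, 0, 0, 0, 0, 0, 0, 0, 1]],
  [[9, 0, 0, 4, 0, 0, 0, 0, 0], [0, 0, 9, 0, 0, 4, 0, 0, 0], [4, 4, 4, 9, 9, 9, 0, 0, 0], [0, 0, 0, 1, 0, 0, 0, 0, 0], [0, 0, 0, 0, 1, 0, 0, 0, 0], [0, 0, 0, 0, 0, 1, 0, 0, 0], [0, 0, 0, 0, 0, 0, 1, 0, 0], [0, 0, 0, 0, 0, 0, 0, 1, 0], [0, 0, 0, 0, 0, 0, 0, 0, 1]]⟩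
def C9 : LE := ⟨[[1, 1, 1, 0, 0, 0, 1, 0, 0], [12, 0, 0, 0, 0, 0, 0, 1, 0], [0, 12, 0, 0, 0, 0, 0, 0, 1], [0, 0, 0, 1, 0, 0, 0, 0, 0], [0, 0, 0, 0, 1, 0, 0, 0, 0], [0, 0, 0, 0, 0, 1, 0, 0, 0], [0, 0, 0, 0, 0, 0, 1, 0, 0], [0, 0, 0, 0, 0, 0, 0, 1, 0], [0, 0, 0, 0, 0, 0, 0, 0, 1]],
  [[0, 12, 0, 0, 0, 0, 0, 1, 0], [0, 0, 12, 0, 0, 0, 0, 0, 1], [1, 1, 1, 0, 0, 0, 12, 12, 12], [0, 0, 0, 1, 0, 0, 0, 0, 0], [0, 0, 0, 0, 1, 0, 0, 0, 0], [0, 0, 0, 0, 0, 1, 0, 0, 0], [0, 0, 0, 0, 0, 0, 1, 0, 0], [0, 0, 0, 0, 0, 0, 0, 1, 0], [0, 0, 0, 0, 0, 0, 0, 0, 1]]⟩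
def T9 : LE := ⟨[[0, 0, 1, 0, 0, 0, 0, 0, 0], [1, 0, 0, 0, 0, 0, 0, 0, 0], [12, 12, 12, 0, 0, 0, 0, 0, 0], [0, 0, 0, 1, 0, 0, 0, 0, 0], [0, 0, 0, 0, 1, 0, 0, 0, 0], [0, 0, 0, 0, 0, 1, 0, 0, 0], [0, 0, 0, 0, 0, 0, 1, 0, 0], [0, 0, 0, 0, 0, 0, 0, 1, 0], [0, 0, 0, 0, 0, 0, 0, 0, 1]],
  [[0, 1, 0, 0, 0, 0, 0, 0, 0], [12, 12, 12, 0, 0, 0, 0, 0, 0], [1, 0, 0, 0, 0, 0, 0, 0, 0], [0, 0, 0, 1, 0, 0, 0, 0, 0], [0, 0, 0, 0, 1, 0, 0, 0, 0], [0, 0, 0, 0, 0, 1, 0, 0, 0], [0, 0, 0, 0, 0, 0, 1, 0, 0], [0, 0, 0, 0, 0, 0, 0, 1, 0], [0, 0, 0, 0, 0, 0, 0, 0, 1]]⟩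
def P1 : LM := [[0, 0, 0, 0, 0, 0, 0, 0, 0], [0, 0, 0, 0, 0, 0, 0, 0, 0], [0, 0, 0, 0, 0, 0, 0, 0, 0], [0, 4, 0, 0, 0, 0, 0, 0, 0], [0, 7, 0, 0, 0, 0, 0, 0, 0], [0, 11, 0, 0, 0, 0, 0, 0, 0], [0, 0, 0, 0, 0, 0, 0, 0, 0], [0, 0, 0, 0, 0, 0, 0, 0, 0], [0, 0, 0, 0, 0, 0, 0, 0, 0]]
def P2 : LM := [[0, 0, 0, 0, 0, 0, 0, 0, 0], [0, 0, 0, 0, 0, 0, 0, 0, 0], [0, 0, 0, 0, 0, 0, 0, 0, 0], [4, 0, 0, 0, 0, 0, 0, 0, 0], [7, 0, 0, 0, 0, 0, 0, 0, 0], [0, 0, 0, 0, 0, 0, 0, 0, 0], [11, 0, 0, 0, 0, 0, 0, 0, 0], [10, 0, 0, 0, 0, 0, 0, 0, 0], [9, 0, 0, 0, 0, 0, 0, 0, 0]]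
def P3 : LM := [[0, 0, 0, 0, 0, 0, 0, 0, 0], [0, 0, 0, 0, 0, 0, 0, 0, 0], [0, 0, 0, 0, 0, 0, 0, 0, 0], [1, 2, 0, 0, 0, 0, 0, 0, 0], [2, 9, 0, 0, 0, 0, 0, 0, 0], [12, 4, 0, 0, 0, 0, 0, 0, 0], [9, 5, 0, 0, 0, 0, 0, 0, 0], [4, 3, 0, 0, 0, 0, 0, 0, 0], [4, 8, 0, 0, 0, 0, 0, 0, 0]]
def P4 : LM := [[0, 0, 0, 0, 0, 0, 0, 0, 0], [0, 0, 0, 0, 0, 0, 0, 0, 0], [0, 0, 0, 0, 0, 0, 0, 0, 0], [0, 2, 0, 0, 0, 0, 0, 0, 0], [5, 2, 0, 0, 0, 0, 0, 0, 0], [6, 6, 0, 0, 0, 0, 0, 0, 0], [11, 1, 0, 0, 0, 0, 0, 0, 0], [6, 10, 0, 0, 0, 0, 0, 0, 0], [2, 12, 0, 0, 0, 0, 0, 0, 0]]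

theorem fin : FinCert 10 :=
  ⟨B9, C9, T9, [P1, P2, P3, P4], by decide +kernel, by decide +kernel, by decide +kernel,
    by decide +kernel, by decide +kernel, by decide +kernel, by decide +kernel⟩

end Pool.Agent.Helper95.DFJ.F13.D10

namespace Pool.Agent.Helper95.DFJ.F13.D11

open Matrix

def B : LE := ⟨[[9, 0, 0, 1, 0, 0, 0, 0, 0, 0, 0], [4, 4, 4, 0, 1, 0, 0, 0, 0, 0, 0], [0, 9, 0, 5, 3, 0, 0, 0, 0, 0, 0], [0, 0, 0, 1, 0, 0, 0, 0, 0, 0, 0], [0, 0, 0, 0, 1, 0, 0, 0, 0, 0, 0], [0, 0, 0, 0, 0, 1, 0, 0, 0, 0, 0], [0, 0, 0, 0, 0, 0, 1, 0, 0, 0, 0], [0, 0, 0, 0, 0, 0, 0, 1, 0, 0, 0], [0, 0, 0, 0, 0, 0, 0, 0, 1, 0, 0], [0, 0, 0, 0, 0, 0, 0, 0, 0, 1, 0], [0, 0, 0, 0, 0, 0, 0,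 0, 0, 0, 1]],
  [[3, 0, 0, 10, 0, 0, 0, 0, 0, 0, 0], [0, 0, 3, 11, 4, 0, 0, 0, 0, 0, 0], [10, 10, 10, 5, 12, 0, 0, 0, 0, 0, 0], [0, 0, 0, 1, 0, 0, 0, 0, 0, 0, 0], [0, 0, 0, 0, 1, 0, 0, 0, 0, 0, 0], [0, 0, 0, 0, 0, 1, 0, 0, 0, 0, 0], [0, 0, 0, 0, 0, 0, 1, 0, 0, 0, 0], [0, 0, 0, 0, 0, 0, 0, 1, 0, 0, 0], [0, 0, 0, 0, 0, 0, 0, 0, 1, 0, 0], [0, 0, 0, 0, 0, 0, 0, 0, 0, 1, 0], [0, 0, 0, 0, 0, 0, 0, 0, 0, 0, 1]]⟩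
def C : LE := ⟨[[8, 8, 8, 0, 0, 1, 0, 0, 0, 0, 0], [5, 0, 0, 0, 0, 0, 1, 0, 0, 0, 0], [0, 5, 0, 0, 0, 8, 7, 0, 0, 0, 0], [0, 0, 0, 1, 0, 0, 0, 0, 0, 0, 0], [0, 0, 0, 0, 1, 0, 0, 0, 0, 0, 0], [0, 0, 0, 0, 0, 1, 0, 0, 0, 0, 0], [0, 0, 0, 0, 0, 0, 1, 0, 0, 0, 0], [0, 0, 0, 0, 0, 0, 0, 1, 0, 0, 0], [0, 0, 0, 0, 0, 0, 0, 0, 1, 0, 0], [0, 0, 0, 0, 0, 0, 0, 0, 0, 1, 0], [0, 0, 0, 0, 0, 0, 0, 0, 0, 0, 1]],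
  [[0, 8, 0, 0, 0, 0, 5, 0, 0, 0, 0], [0, 0, 8, 0, 0, 1, 9, 0, 0, 0, 0], [5, 5, 5, 0, 0, 7, 12, 0, 0, 0, 0], [0, 0, 0, 1, 0, 0, 0, 0, 0, 0, 0], [0, 0, 0, 0, 1, 0, 0, 0, 0, 0, 0], [0, 0, 0, 0, 0, 1, 0, 0, 0, 0, 0], [0, 0, 0, 0, 0, 0, 1, 0, 0, 0, 0], [0, 0, 0, 0, 0, 0, 0, 1, 0, 0, 0], [0, 0, 0, 0, 0, 0, 0, 0, 1, 0, 0], [0, 0, 0, 0, 0, 0, 0, 0, 0, 1, 0], [0, 0, 0, 0, 0, 0, 0, 0, 0, 0, 1]]⟩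
def T : LE := ⟨[[0, 0, 1, 0, 0, 0, 0, 0, 0, 0, 0], [1, 0, 0, 0, 0, 0, 0, 0, 0, 0, 0], [12, 12, 12, 0, 0, 0, 0, 0, 0, 0, 0], [0, 0, 0, 0, 0, 0, 0, 1, 0, 0, 0], [0, 0, 0, 0, 0, 0, 0, 0, 1, 0, 0], [0, 0, 0, 0, 0, 0, 0, 0, 0, 1, 0], [0, 0, 0, 0, 0, 0, 0, 0, 0, 0, 1], [0, 0, 0, 6, 0, 4, 1, 12, 2, 12, 9], [0, 0, 0, 6, 11, 3, 11, 1, 4, 7, 12], [0, 0, 0, 3, 3, 2, 8, 10, 4, 0, 2], [0, 0, 0, 0, 12, 6, 3, 8, 0, 1, 6]],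
  [[0, 1, 0, 0, 0, 0, 0, 0, 0, 0, 0], [12, 12, 12, 0, 0, 0, 0, 0, 0, 0, 0], [1, 0, 0, 0, 0, 0, 0, 0, 0, 0, 0], [0, 0, 0, 3, 1, 3, 2, 2, 3, 12, 4], [0, 0, 0, 4, 10, 9, 12, 1, 1, 9, 11], [0, 0, 0, 3, 3, 1, 8, 3, 6, 8, 12], [0, 0, 0, 10, 6, 5, 12, 3, 10, 0, 6], [0, 0, 0, 1, 0, 0, 0, 0, 0, 0, 0], [0, 0, 0, 0, 1, 0, 0, 0, 0, 0, 0], [0, 0, 0, 0, 0, 1, 0, 0, 0, 0, 0], [0, 0, 0, 0, 0, 0, 1, 0, 0, 0, 0]]⟩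
def Q : LE := ⟨[[0, 0, 0, 0, 1, 0, 0, 0], [0, 0, 0, 0, 0, 1, 0, 0], [0, 0, 0, 0, 0, 0, 1, 0], [0, 0, 0, 0, 0, 0, 0, 1], [6, 0, 4, 1, 12, 2, 12, 9], [6, 11, 3, 11, 1, 4, 7, 12], [3, 3, 2, 8, 10, 4, 0, 2], [0, 12, 6, 3, 8, 0, 1, 6]],
  [[3, 1, 3, 2, 2, 3, 12, 4], [4, 10, 9, 12, 1, 1, 9, 11], [3, 3, 1, 8, 3, 6, 8, 12], [10, 6, 5, 12, 3, 10, 0, 6], [1, 0, 0, 0, 0, 0, 0, 0], [0, 1, 0, 0, 0, 0, 0, 0], [0, 0, 1, 0, 0, 0, 0, 0], [0, 0, 0, 1, 0, 0, 0, 0]]⟩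
def Ub : LM := [[1, 0, 0, 0, 0, 0, 0, 0], [0, 1, 0, 0, 0, 0, 0, 0], [5, 3, 0, 0, 0, 0, 0, 0]]
def Uc : LM := [[0, 0, 1, 0, 0, 0, 0, 0], [0, 0, 0, 1, 0, 0, 0, 0], [0, 0, 8, 7, 0, 0, 0, 0]]
def S1 : LM := [[1, 0, 0], [0, 1, 0], [0, 0, 0], [0, 0, 0], [0, 0, 0], [0, 0, 0], [0, 0, 0], [0, 0, 0]]
def S2 : LM := [[0, 0, 0], [0, 0, 0], [1, 0, 0], [0, 1, 0], [0, 0, 0], [0, 0, 0], [0, 0, 0], [0, 0, 0]]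
def S3 : LM := [[0, 0, 0], [0, 0, 0], [0, 0, 0], [0, 0, 0], [1, 0, 0], [0, 1, 0], [0, 0, 0], [0, 0, 0]]
def S4 : LM := [[0, 0, 0], [0, 0, 0], [0, 0, 0], [0, 0, 0], [0, 0, 0], [0, 0, 0], [1, 0, 0], [0, 1, 0]]

theorem fam : FamCert 11 8 :=
  ⟨B, C, T, Q, Ub, Uc, S1, S2, S3, S4, by decide +kernel, by decide +kernel, by decide +kernel,
    by decide +kernel, by decide +kernel, by decide +kernel, by decide +kernel, by decide +kernel,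
    by decide +kernel⟩

def B9 : LE := ⟨[[9, 0, 0, 1, 0, 0, 0, 0, 0], [4, 4, 4, 0, 1, 0, 0, 0, 0], [0, 9, 0, 0, 0, 1, 0, 0, 0], [0, 0, 0, 1, 0, 0, 0, 0, 0], [0, 0, 0, 0, 1, 0, 0, 0, 0], [0, 0, 0, 0, 0, 1, 0, 0, 0], [0, 0, 0, 0, 0, 0, 1, 0, 0], [0, 0, 0, 0, 0, 0, 0, 1, 0], [0, 0, 0, 0, 0, 0, 0, 0, 1]],
  [[3, 0, 0, 10, 0, 0, 0, 0, 0], [0, 0, 3, 0, 0, 10, 0, 0, 0], [10, 10, 10, 3, 3, 3, 0, 0, 0], [0, 0, 0, 1, 0, 0, 0, 0, 0], [0, 0, 0, 0, 1, 0, 0, 0, 0], [0, 0, 0, 0, 0, 1, 0, 0, 0], [0, 0, 0, 0, 0, 0, 1, 0, 0], [0, 0, 0, 0, 0, 0, 0, 1, 0], [0, 0, 0, 0, 0, 0, 0, 0, 1]]⟩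
def C9 : LE := ⟨[[8, 8, 8, 0, 0, 0, 1, 0, 0], [5, 0, 0, 0, 0, 0, 0, 1, 0], [0, 5, 0, 0, 0, 0, 0, 0, 1], [0, 0, 0, 1, 0, 0, 0, 0, 0], [0, 0, 0, 0, 1, 0, 0, 0, 0], [0, 0, 0, 0, 0, 1, 0, 0, 0], [0, 0, 0, 0, 0, 0, 1, 0, 0], [0, 0, 0, 0, 0, 0, 0, 1, 0], [0, 0, 0, 0, 0, 0, 0, 0, 1]],
  [[0, 8, 0, 0, 0, 0, 0, 5, 0], [0, 0, 8, 0, 0, 0, 0, 0, 5], [5, 5, 5, 0, 0, 0, 8, 8, 8], [0, 0, 0, 1, 0, 0, 0, 0, 0], [0, 0, 0, 0, 1, 0, 0, 0, 0], [0, 0, 0, 0, 0, 1, 0, 0, 0], [0, 0, 0, 0, 0, 0, 1, 0, 0], [0, 0, 0, 0, 0, 0, 0, 1, 0], [0, 0, 0, 0, 0, 0, 0, 0, 1]]⟩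
def T9 : LE := ⟨[[0, 0, 1, 0, 0, 0, 0, 0, 0], [1, 0, 0, 0, 0, 0, 0, 0, 0], [12, 12, 12, 0, 0, 0, 0, 0, 0], [0, 0, 0, 1, 0, 0, 0, 0, 0], [0, 0, 0, 0, 1, 0, 0, 0, 0], [0, 0, 0, 0, 0, 1, 0, 0, 0], [0, 0, 0, 0, 0, 0, 1, 0, 0], [0, 0, 0, 0, 0, 0, 0, 1, 0], [0, 0, 0, 0, 0, 0, 0, 0, 1]],
  [[0, 1, 0, 0, 0, 0, 0, 0, 0], [12, 12, 12, 0, 0, 0, 0, 0, 0], [1, 0, 0, 0, 0, 0, 0, 0, 0], [0, 0, 0, 1, 0, 0, 0, 0, 0], [0, 0, 0, 0, 1, 0, 0, 0, 0], [0, 0, 0, 0, 0, 1, 0, 0, 0], [0, 0, 0, 0, 0, 0, 1, 0, 0], [0, 0, 0, 0, 0, 0, 0, 1, 0], [0, 0, 0, 0, 0, 0, 0, 0, 1]]⟩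
def P1 : LM := [[0, 0, 0, 0, 0, 0, 0, 0, 0], [0, 0, 0, 0, 0, 0, 0, 0, 0], [0, 0, 0, 0, 0, 0, 0, 0, 0], [0, 4, 0, 0, 0, 0, 0, 0, 0], [0, 10, 0, 0, 0, 0, 0, 0, 0], [0, 0, 0, 0, 0, 0, 0, 0, 0], [0, 5, 0, 0, 0, 0, 0, 0, 0], [0, 12, 0, 0, 0, 0, 0, 0, 0], [0, 7, 0, 0, 0, 0, 0, 0, 0]]
def P2 : LM := [[0, 0, 0, 0, 0, 0, 0, 0, 0], [0, 0, 0, 0, 0, 0, 0, 0, 0], [0, 0, 0, 0, 0, 0, 0, 0, 0], [12, 0, 0, 0, 0, 0, 0, 0, 0], [2, 0, 0, 0, 0, 0, 0, 0, 0], [1, 0, 0, 0, 0, 0, 0, 0, 0], [10, 0, 0, 0, 0, 0, 0, 0, 0], [8, 0, 0, 0, 0, 0, 0, 0, 0], [8, 0, 0, 0, 0, 0, 0, 0, 0]]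
def P3 : LM := [[0, 0, 0, 0, 0, 0, 0, 0, 0], [0, 0, 0, 0, 0, 0, 0, 0, 0], [0, 0, 0, 0, 0, 0, 0, 0, 0], [2, 1, 0, 0, 0, 0, 0, 0, 0], [2, 7, 0, 0, 0, 0, 0, 0, 0], [3, 0, 0, 0, 0, 0, 0, 0, 0], [5, 8, 0, 0, 0, 0, 0, 0, 0], [9, 1, 0, 0, 0, 0, 0, 0, 0], [12, 6, 0, 0, 0, 0, 0, 0, 0]]
def P4 : LM := [[0, 0, 0, 0, 0, 0, 0, 0, 0], [0, 0, 0, 0, 0, 0, 0, 0, 0], [0, 0, 0, 0, 0, 0, 0, 0, 0], [12, 2, 0, 0, 0, 0, 0, 0, 0], [6, 6, 0, 0, 0, 0, 0, 0, 0], [0, 2, 0, 0, 0, 0, 0, 0, 0], [4, 6, 0, 0, 0, 0, 0, 0, 0], [5, 9, 0, 0, 0, 0, 0, 0, 0], [2, 7, 0, 0, 0, 0, 0, 0, 0]]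

theorem fin : FinCert 11 :=
  ⟨B9, C9, T9, [P1, P2, P3, P4], by decide +kernel, by decide +kernel, by decide +kernel,
    by decide +kernel, by decide +kernel, by decide +kernel, by decide +kernel⟩

end Pool.Agent.Helper95.DFJ.F13.D11
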