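import Pool.Agent.Helper95.DFJ.F13.Cert
import Pool.Agent.Helper95.DFJ.F13.DA
import Pool.Agent.Helper95.DFJ.F13.DB
import Pool.Agent.Helper95.DFJ.F13.DC
import Pool.Agent.Helper95.DFJ.F13.DD
import Pool.Agent.Helper95.DFJ.St.A9

/-!
# DFJ: the lower bound: crossed homomorphisms of the 12-fold cyclic subgroup over `ZMod 13`
-/

namespace Pool.Agent.Helper95.DFJ.F13

open Matrix Multiplicative Module

/-- the dimensions -/
def dd (j : ℕ) : ℕ := if j % 4 = 0 then 9 else 8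

theorem famCert : ∀ j : Fin 12, FamCert j (dd j) := by
  intro j
  fin_cases j
  · exact D0.fam
  · exact D1.fam
  · exact D2.fam
  · exact D3.fam
  · exact D4.fam
  · exact D5.fam
  · exact D6.fam
  · exact D7.fam
  · exact D8.fam
  · exact D9.fam
  · exact D10.fam
  · exact D11.fam

theorem finCert : ∀ j : Fin 12, FinCert j := by
  intro j
  fin_cases j
  · exact D0.fin
  · exact D1.fin
  · exact D2.fin
  · exact D3.fin
  · exact D4.fin
  · exact D5.fin
  · exact D6.fin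
  · exact D7.fin
  · exact D8.fin
  · exact D9.fin
  · exact D10.fin
  · exact D11.fin

theorem dd_sum : ∑ j : Fin 12, dd j = 99 := by decide

def B3 : LE := ⟨wb, [[1, 0, 0], [0, 0, 1], [12, 12, 12]]⟩
def C3 : LE := ⟨wc, [[0, 1, 0], [0, 0, 1], [12, 12, 12]]⟩
def T3 : LE := ⟨wt, [[0, 1, 0], [12, 12, 12], [1, 0, 0]]⟩

theorem vB3 : valid 3 B3 = true := by decide +kernel
theorem vC3 : valid 3 C3 = true := by decide +kernel
theorem vT3 : valid 3 T3 = true := by decide +kernel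
theorem rel3 : relChk 3 B3 C3 T3 = true := by decide +kernel

def cm (x y : LE) : LE := LE.mul 3 (LE.mul 3 (LE.mul 3 x y) x.inv) y.inv

theorem fix3 : ∀ v : Fin 3 → K, toM 3 (cm B3 C3).m *ᵥ v = v → toM 3 (cm C3 T3).m *ᵥ v = v → v = 0 := by
  decide +kernel

theorem pow2 : ∀ x : K, x ≠ 0 → ∃ j : Fin 12, x = 2 ^ (j : ℕ) := by decide +kernel

/-- the unit `2` of `ZMod 13` -/
def z2 : Kˣ := ⟨2, 7, by decide, by decide⟩

theorem z2_prim : IsPrimitiveRoot z2 12 := by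
  rw [← IsPrimitiveRoot.coe_units_iff]
  refine IsPrimitiveRoot.mk_of_lt _ (by norm_num) (by decide +kernel) ?_
  intro l hl hl'
  have : ∀ l : Fin 12, 0 < (l : ℕ) → ((z2 : Kˣ) : K) ^ (l : ℕ) ≠ 1 := by decide +kernel
  exact this ⟨l, hl'⟩ hl

theorem lower {G : Type} [Group G] {b c t : G} (hG : IsUniv b c t) (α : G →* Multiplicative ℤ)
    (hαb : α b = 1) (hαc : α c = 1) (hαt : α t = ofAdd 1) (κ : G →* Kˣ)
    (hκb : (κ b : K) = 16) (hκc : (κ c : K) = 8) (hκt : t ∈ κ.ker) :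
    ∃ ρ : Representation K G (Fin 3 → K),
      FiniteDimensional K (Zt (resRep κ.ker (seqRep ρ α)) (⟨t, hκt⟩ : κ.ker)) ∧
      66 ≤ finrank K (Zt (resRep κ.ker (seqRep ρ α)) (⟨t, hκt⟩ : κ.ker)) := by
  have rB := toU_rp _ B3 vB3
  have rC := toU_rp _ C3 vC3
  have rT := toU_rp _ T3 vT3
  obtain ⟨f, f1, f2, f3⟩ := hG.2.2 _ _ _ _ (rel_of_chk rB rC rT rel3)
  let ρ : Representation K G (Fin 3 → K) :=
    ((Matrix.toLinAlgEquiv' : MT 3 ≃ₐ[K] ((Fin 3 → K) →ₗ[K] (Fin 3 → K))).toAlgHom.toRingHom.toMonoidHom).comp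
      ((Units.coeHom (MT 3)).comp f)
  have hρ : ∀ g, ρ g = Matrix.toLin' (f g : MT 3) := fun g => rfl
  have hρ' : ∀ g, LinearMap.toMatrix' (ρ g) = (f g : MT 3) := fun g => by
    rw [hρ, LinearMap.toMatrix'_toLin']
  have hκt1 : κ t = 1 := MonoidHom.mem_ker.1 hκt
  have mtw : ∀ (j : ℕ) (g : G), LinearMap.toMatrix' (tw (κ ^ j) ρ g) = ((κ g : K) ^ j) • (f g : MT 3) := by
    intro j g
    have : tw (κ ^ j) ρ g = ((κ g : K) ^ j) • ρ g := by
      refine LinearMap.ext fun x => ?_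
      rw [tw_apply, MonoidHom.pow_apply, Units.val_pow_eq_pow_val, LinearMap.smul_apply]
    rw [this, map_smul, hρ']
  have hb : ∀ j : ℕ, LinearMap.toMatrix' (tw (κ ^ j) ρ b) = toM 3 (sclM (16 ^ j) wb) := by
    intro j
    rw [mtw, hκb, toM_scl, f1, rB.e1]
    push_cast; rfl
  have hc : ∀ j : ℕ, LinearMap.toMatrix' (tw (κ ^ j) ρ c) = toM 3 (sclM (8 ^ j) wc) := by
    intro j
    rw [mtw, hκc, toM_scl, f2, rC.e1]
    push_cast; rfl
  have ht : ∀ j : ℕ, LinearMap.toMatrix' (tw (κ ^ j) ρ t) = toM 3 wt := by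
    intro j
    rw [mtw, hκt1, Units.val_one, one_pow, one_smul, f3, rT.e1]
    rfl
  have hfin : ∀ j : Fin 12, FiniteDimensional K (Zt (seqRep (tw (κ ^ (j : ℕ)) ρ) α) t) := fun j =>
    (finCert j).apply hG _ α (hb j) (hc j) (ht j)
  have hge : ∀ j : Fin 12, dd j ≤ finrank K (Zt (seqRep (tw (κ ^ (j : ℕ)) ρ) α) t) := fun j => by
    haveI := hfin j
    exact (famCert j).apply hG _ α hαb hαc hαt (hb j) (hc j) (ht j)
  have hκ : ∀ g, ∃ j : ℕ, κ g = z2 ^ j := by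
    intro g
    obtain ⟨j, hj⟩ := pow2 (κ g : K) (Units.ne_zero _)
    exact ⟨j, Units.ext (by rw [hj, Units.val_pow_eq_pow_val]; rfl)⟩
  have hg₀ : κ (b * c ^ 3) = z2 := by
    apply Units.ext
    rw [map_mul, map_pow, Units.val_mul, Units.val_pow_eq_pow_val, hκb, hκc]
    decide +kernel
  have hinv : ∀ m : ℤ → (Fin 3 → K), (∀ g ∈ κ.ker, seqRep ρ α g m = m) → m = 0 := by
    intro m hm
    funext i
    have hcomm : ∀ x y : G, Matrix.toLin' (f (x * y * x⁻¹ * y⁻¹) : MT 3) (m i) = m i := by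
      intro x y
      have h1 : x * y * x⁻¹ * y⁻¹ ∈ κ.ker := by
        rw [MonoidHom.mem_ker]
        simp only [map_mul, map_inv]
        rw [mul_comm (κ x) (κ y)]; group
      have h2 : α (x * y * x⁻¹ * y⁻¹) = 1 := by
        simp only [map_mul, map_inv]
        rw [mul_comm (α x) (α y)]; group
      have h3 := congrFun (hm _ h1) i
      rw [seqRep_apply, h2, toAdd_one, sub_zero] at h3
      exact h3
    have rb : Rp 3 (f b) B3 := by rw [f1]; exact rB
    have rc : Rp 3 (f c) C3 := by rw [f2]; exact rC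
    have rt : Rp 3 (f t) T3 := by rw [f3]; exact rT
    have k1 := hcomm b c
    have k2 := hcomm c t
    have e1 : (f (b * c * b⁻¹ * c⁻¹) : MT 3) = toM 3 (cm B3 C3).m := by
      simp only [map_mul, map_inv]
      exact (((rb.mul rc).mul rb.inv).mul rc.inv).e1
    have e2 : (f (c * t * c⁻¹ * t⁻¹) : MT 3) = toM 3 (cm C3 T3).m := by
      simp only [map_mul, map_inv]
      exact (((rc.mul rt).mul rc.inv).mul rt.inv).e1
    rw [e1, Matrix.toLin'_apply] at k1
    rw [e2, Matrix.toLin'_apply] at k2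
    exact fix3 _ k1 k2
  obtain ⟨h1, h2⟩ := A9 ρ α t hαt 12 (by decide) z2 z2_prim κ hκ (b * c ^ 3) hg₀ hκt hfin hinv
  refine ⟨ρ, h1, ?_⟩
  have h3 : 99 ≤ ∑ j : Fin 12, finrank K (Zt (seqRep (tw (κ ^ (j : ℕ)) ρ) α) t) := by
    rw [← dd_sum]
    exact Finset.sum_le_sum fun j _ => hge j
  have h4 : finrank K (Fin 3 → K) = 3 := by simp
  rw [h4] at h2
  omega

end Pool.Agent.Helper95.DFJ.F13
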